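import Mathlib
import Pool.Agent.Lib.MP_f83138_lc.D3.LC

section

/-!
The run of a machine with lists instead of tapes.
-/

set_option autoImplicit false

namespace Pool.Agent.D3

open Pool.Agent.DR

variable {M : Machine} {x : List Bool}

private theorem L1_headD {α : Type} (l : List α) (b : α) : l.headD b = l.getD 0 b := by
  cases l <;> rfl

private theorem L1_tail {α : Type} (l : List α) (b : α) (m : ℕ) : l.tail.getD m b = l.getD (m + 1) b := by
  cases l with
  | nil => rfl
  | cons a l => rfl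

private theorem L1_cons0 {α : Type} (a : α) (l : List α) (b : α) : (a :: l).getD 0 b = a := rfl

private theorem L1_cons1 {α : Type} (a : α) (l : List α) (b : α) (m : ℕ) :
    (a :: l).getD (m + 1) b = l.getD m b := rfl

private theorem L1_run_succ {t : ℕ} {C C' : M.Config} (h : M.run x t = some C) (hn : M.next x C = some C') :
    M.run x (t + 1) = some C' := by
  show (M.run x t).bind (M.next x) = some C'
  rw [h]
  exact hn

private theorem L1_mono {s t : ℕ} (h : M.run x s = none) (hst : s ≤ t) : M.run x t = none := by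
  induction t, hst using Nat.le_induction with
  | base => exact h
  | succ t _ ih =>
    show (M.run x t).bind (M.next x) = none
    rw [ih]
    rfl

private theorem L1_time_none (hH : M.Halts x) : M.run x (M.time x + 1) = none := by
  have hne : {t | M.run x (t + 1) = none}.Nonempty := by
    obtain ⟨t, ht⟩ := hH
    exact ⟨t, L1_mono ht (Nat.le_succ t)⟩
  exact Nat.sInf_mem hne

private theorem L1_time_some (t : ℕ) (ht : t ≤ M.time x) : ∃ C, M.run x t = some C := by
  rcases h : M.run x t with _ | C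
  · exfalso
    rcases t with _ | t
    · exact absurd h (by simp [Machine.run])
    · have h1 : M.time x ≤ t := Nat.sInf_le h
      omega
  · exact ⟨C, rfl⟩

private theorem L1_le_time (hH : M.Halts x) {t : ℕ} {C : M.Config} (h : M.run x t = some C) :
    t ≤ M.time x := by
  by_contra hc
  have h1 := L1_mono (L1_time_none hH) (show M.time x + 1 ≤ t by omega)
  rw [h1] at h
  exact absurd h (by simp)

/-- The tape and the position after writing `w` and moving. -/
private theorem L1_wr (f : ℤ → M.Γ) (p : ℤ) (L R : List M.Γ) (w : M.Γ) (m : Move)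
    (hR : ∀ m : ℕ, f (p + m) = R.getD m M.blank) (hL : ∀ m : ℕ, f (p - 1 - m) = L.getD m M.blank) :
    (∀ n : ℕ, Function.update f p w (m.work p + n) = (wr M w m (L, R)).2.getD n M.blank) ∧
    (∀ n : ℕ, Function.update f p w (m.work p - 1 - n) = (wr M w m (L, R)).1.getD n M.blank) := by
  cases m with
  | left =>
    simp only [Move.work, wr]
    constructor
    · intro n
      rcases n with _ | _ | n
      · rw [L1_cons0, L1_headD, ← hL 0, Function.update_of_ne (by push_cast; omega)]
        congr 1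
      · rw [L1_cons1, L1_cons0]
        have h1 : p - 1 + ((0 + 1 : ℕ) : ℤ) = p := by push_cast; ring
        rw [h1, Function.update_self]
      · rw [L1_cons1, L1_cons1, L1_tail, ← hR (n + 1), Function.update_of_ne (by push_cast; omega)]
        congr 1
        push_cast
        ring
    · intro n
      rw [L1_tail, ← hL (n + 1), Function.update_of_ne (by push_cast; omega)]
      congr 1
      push_cast
      ring
  | stay =>
    simp only [Move.work, wr]
    constructor
    · intro n
      rcases n with _ | n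
      · rw [L1_cons0]
        have h1 : p + ((0 : ℕ) : ℤ) = p := by push_cast; ring
        rw [h1, Function.update_self]
      · rw [L1_cons1, L1_tail, ← hR (n + 1), Function.update_of_ne (by push_cast; omega)]
    · intro n
      rw [← hL n, Function.update_of_ne (by omega)]
  | right =>
    simp only [Move.work, wr]
    constructor
    · intro n
      rw [L1_tail, ← hR (n + 1), Function.update_of_ne (by push_cast; omega)]
      congr 1
      push_cast
      ring
    · intro n
      rcases n with _ | n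
      · rw [L1_cons0]
        have h1 : p + 1 - 1 - ((0 : ℕ) : ℤ) = p := by push_cast; ring
        rw [h1, Function.update_self]
      · rw [L1_cons1, ← hL n, Function.update_of_ne (by push_cast; omega)]
        congr 1
        push_cast
        ring

private theorem L1_len (p : ℤ) (L R : List M.Γ) (w : M.Γ) (m : Move) (z : ℤ)
    (h1 : m.work p - ((wr M w m (L, R)).1.length : ℤ) ≤ z)
    (h2 : z < m.work p + ((wr M w m (L, R)).2.length : ℤ)) :
    z = p ∨ z = m.work p ∨ (p - (L.length : ℤ) ≤ z ∧ z < p + (R.length : ℤ)) := by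
  cases m with
  | left =>
    simp only [Move.work, wr, List.length_cons, List.length_tail] at h1 h2 ⊢
    omega
  | stay =>
    simp only [Move.work, wr, List.length_cons, List.length_tail] at h1 h2 ⊢
    omega
  | right =>
    simp only [Move.work, wr, List.length_cons, List.length_tail] at h1 h2 ⊢
    omega

/-- TASK L1. -/
theorem rep_init : Rep M x M.init (LC.init M) := by
  refine ⟨rfl, rfl, ?_, fun j m => ?_, fun j m => ?_, fun j z h1 h2 => ?_⟩
  · show 1 ≤ x.length + 1
    omega
  · rfl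
  · rfl
  · exfalso
    simp only [LC.init, Machine.init, List.length_nil] at h1 h2
    push_cast at h1 h2
    omega

/-- TASK L1. The results of the transition function agree. -/
theorem rep_out {C : M.Config} {c : LC M} (h : Rep M x C c) :
    c.out M x = M.step C.q (sym x C.i) fun j => C.tape j (C.pos j) := by
  unfold LC.out
  rw [h.q, h.i]
  congr 1
  funext j
  have h1 := h.right j 0
  rw [L1_headD, ← h1]
  congr 1
  push_cast
  ring

/-- TASK L1. One step: `C` is reached after `t` steps. The new positions are visited because `C'` is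
reached. -/
theorem rep_next {C C' : M.Config} {c : LC M} {t : ℕ} (ht : M.run x t = some C) (h : Rep M x C c)
    (hn : M.next x C = some C') : Rep M x C' (c.next M x) := by
  have ho := rep_out h
  have hn' := hn
  unfold Machine.next at hn'
  rw [Option.map_eq_some_iff] at hn'
  obtain ⟨r, hr, rfl⟩ := hn'
  rw [hr] at ho
  have hnext : c.next M x =
      ⟨r.1, r.2.1.input x.length c.i, fun j => wr M (r.2.2 j).1 (r.2.2 j).2 (c.T j)⟩ := by
    unfold LC.next
    rw [ho]
  rw [hnext]
  refine ⟨rfl, ?_, ?_, fun j m => ?_, fun j m => ?_, fun j z h1 h2 => ?_⟩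
  · show r.2.1.input x.length c.i = r.2.1.input x.length C.i
    rw [h.i]
  · show r.2.1.input x.length c.i ≤ x.length + 1
    have := h.ile
    cases r.2.1 with
    | left =>
      show c.i - 1 ≤ x.length + 1
      omega
    | stay => exact this
    | right => exact min_le_right _ _
  · exact (L1_wr (C.tape j) (C.pos j) (c.T j).1 (c.T j).2 (r.2.2 j).1 (r.2.2 j).2 (h.right j) (h.left j)).1 m
  · exact (L1_wr (C.tape j) (C.pos j) (c.T j).1 (c.T j).2 (r.2.2 j).1 (r.2.2 j).2 (h.right j) (h.left j)).2 m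
  · have h3 := L1_len (M := M) (C.pos j) (c.T j).1 (c.T j).2 (r.2.2 j).1 (r.2.2 j).2 z h1 h2
    rcases h3 with h3 | h3 | h3
    · rw [h3]
      exact ⟨t, C, ht, rfl⟩
    · rw [h3]
      exact ⟨t + 1, _, L1_run_succ ht hn, rfl⟩
    · exact h.vis j z h3.1 h3.2

/-- TASK L1. The whole run. -/
theorem rep_run {t : ℕ} {C : M.Config} (h : M.run x t = some C) :
    Rep M x C ((LC.next M x)^[t] (LC.init M)) := by
  induction t generalizing C with
  | zero =>
    have h1 : M.init = C := by
      have h2 : some M.init = some C := h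
      exact Option.some.inj h2
    rw [← h1]
    exact rep_init
  | succ t ih =>
    have h1 : (M.run x t).bind (M.next x) = some C := h
    rw [Option.bind_eq_some_iff] at h1
    obtain ⟨C0, h2, h3⟩ := h1
    rw [Function.iterate_succ_apply']
    exact rep_next h2 (ih h2) h3

/-- TASK L1. Before the halting time the run exists and the transition function has a result; at the
halting time it exists and there is none (`Machine.time` is an infimum of a nonempty set of numbers). -/
theorem halt_spec (hH : M.Halts x) :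
    (∀ t ≤ M.time x, ∃ C, M.run x t = some C) ∧
    (∀ t < M.time x, ((LC.next M x)^[t] (LC.init M)).out M x ≠ none) ∧
    ((LC.next M x)^[M.time x] (LC.init M)).out M x = none := by
  refine ⟨fun t ht => L1_time_some t ht, fun t ht => ?_, ?_⟩
  · obtain ⟨C, hC⟩ := L1_time_some (M := M) (x := x) t ht.le
    obtain ⟨C', hC'⟩ := L1_time_some (M := M) (x := x) (t + 1) ht
    rw [rep_out (rep_run hC)]
    intro h0
    have h1 : (M.run x t).bind (M.next x) = some C' := hC'
    rw [hC] at h1
    have h2 : M.next x C = some C' := h1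
    unfold Machine.next at h2
    rw [h0] at h2
    exact absurd h2 (by simp)
  · obtain ⟨C, hC⟩ := L1_time_some (M := M) (x := x) (M.time x) le_rfl
    have h1 : (M.run x (M.time x)).bind (M.next x) = none := L1_time_none hH
    rw [hC] at h1
    have h2 : M.next x C = none := h1
    unfold Machine.next at h2
    rw [Option.map_eq_none_iff] at h2
    rw [rep_out (rep_run hC), h2]

/-- TASK L1. Acceptance: the state at the halting time is accepting. -/
theorem accepts_iff (hH : M.Halts x) :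
    M.Accepts x ↔ ((LC.next M x)^[M.time x] (LC.init M)).q ∈ M.acc := by
  obtain ⟨C, hC⟩ := L1_time_some (M := M) (x := x) (M.time x) le_rfl
  have hrep := rep_run hC
  have h1 : (M.run x (M.time x)).bind (M.next x) = none := L1_time_none hH
  rw [hC] at h1
  have h2 : M.next x C = none := h1
  rw [hrep.q]
  constructor
  · rintro ⟨t, C', ht, hn, hq⟩
    have h3 : M.run x (t + 1) = none := by
      show (M.run x t).bind (M.next x) = none
      rw [ht]
      exact hn
    have h4 : M.time x ≤ t := Nat.sInf_le h3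
    have h5 := L1_le_time hH ht
    have h6 : t = M.time x := le_antisymm h5 h4
    subst h6
    rw [hC] at ht
    rw [Option.some.inj ht]
    exact hq
  · intro hq
    exact ⟨M.time x, C, hC, h2, hq⟩

/-- TASK L1. Halting machines visit finitely many cells. -/
theorem cells_finite (hH : M.Halts x) : (M.cells x).Finite := by
  have h1 : M.cells x ⊆ ⋃ t ∈ Set.Iic (M.time x),
      {p : Fin M.k × ℤ | ∃ c, M.run x t = some c ∧ c.pos p.1 = p.2} := by
    rintro p ⟨t, c, ht, hp⟩
    exact Set.mem_biUnion (x := t) (L1_le_time hH ht) ⟨c, ht, hp⟩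
  refine Set.Finite.subset (Set.Finite.biUnion (Set.finite_Iic _) fun t _ => ?_) h1
  rcases hr : M.run x t with _ | C
  · refine Set.finite_empty.subset ?_
    rintro p ⟨c, hc, -⟩
    exact absurd hc (by simp)
  · refine (Set.finite_range fun j : Fin M.k => (j, C.pos j)).subset ?_
    rintro p ⟨c, hc, hp⟩
    have h2 : C = c := Option.some.inj hc
    subst h2
    exact ⟨p.1, Prod.ext rfl hp⟩

/-- TASK L1. The lists are short. -/
theorem rep_length (hH : M.Halts x) {C : M.Config} {c : LC M} (h : Rep M x C c) (j : Fin M.k) :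
    (c.T j).1.length + (c.T j).2.length ≤ (M.cells x).ncard := by
  have hinj : Function.Injective fun z : ℤ => (j, z) := fun a b hab => (Prod.ext_iff.mp hab).2
  have h1 : (fun z : ℤ => (j, z)) '' (Set.Ico (C.pos j - (c.T j).1.length) (C.pos j + (c.T j).2.length)) ⊆
      M.cells x := by
    rintro _ ⟨z, hz, rfl⟩
    exact h.vis j z hz.1 hz.2
  have h2 := Set.ncard_le_ncard h1 (cells_finite hH)
  rw [Set.ncard_image_of_injective _ hinj, ← Finset.coe_Ico, Set.ncard_coe_finset, Int.card_Ico] at h2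
  omega

end Pool.Agent.D3
end

section

/-!
Exponents.
-/

set_option autoImplicit false

namespace Pool.Agent.D3

/-- The least `d` with `n ^ a ≤ d ^ b` (for `0 < a < b`). -/
def dn (a b n : ℕ) : ℕ := (List.range n).countP fun v => decide (v ^ b < n ^ a)

/-- The space bound. -/
noncomputable def spc (e : ℝ) (n : ℕ) : ℕ := min n ⌈(n : ℝ) ^ e⌉₊

/-- TASK E1. -/
theorem dn_le (a b n : ℕ) : dn a b n ≤ n := by
  rw [dn]
  exact List.countP_le_length.trans (by simp)

private theorem E1_count (p : ℕ → Bool) (c : ℕ) (h : ∀ v, p v = true ↔ v < c) (n : ℕ) :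
    (List.range n).countP p = min n c := by
  induction n with
  | zero => simp
  | succ n ih =>
    rw [List.range_succ, List.countP_append, ih]
    by_cases hn : n < c
    · have h1 : p n = true := (h n).2 hn
      simp [h1]
      omega
    · have h1 : p n = false := by
        rw [← Bool.not_eq_true, h n]; exact hn
      simp [h1]
      omega

/-- TASK E1. The numbers counted are `0, ..., dn - 1`. -/
theorem dn_lt_iff {a b n v : ℕ} (ha : 0 < a) (hab : a < b) (hn : 0 < n) :
    v < dn a b n ↔ v ^ b < n ^ a := by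
  have hb : 0 < b := ha.trans hab
  have hex : ∃ c, n ^ a ≤ c ^ b := ⟨n, Nat.pow_le_pow_right hn hab.le⟩
  classical
  have hc : ∀ v, v ^ b < n ^ a ↔ v < Nat.find hex := by
    intro v
    constructor
    · intro h
      by_contra h'
      have h2 := Nat.find_spec hex
      have h3 := Nat.pow_le_pow_left (not_lt.1 h') b
      omega
    · intro h
      exact not_le.1 (Nat.find_min hex h)
  have h1 : dn a b n = min n (Nat.find hex) :=
    E1_count _ _ (fun v => by rw [decide_eq_true_iff]; exact hc v) n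
  have h2 : Nat.find hex ≤ n := Nat.find_min' hex (Nat.pow_le_pow_right hn hab.le)
  rw [h1, min_eq_right h2]
  exact (hc v).symm

/-- TASK E1. -/
theorem dn_pos {a b n : ℕ} (hb : 0 < b) (hn : 0 < n) : 0 < dn a b n := by
  rw [dn, List.countP_pos_iff]
  refine ⟨0, List.mem_range.2 hn, ?_⟩
  rw [decide_eq_true_iff, zero_pow hb.ne']
  exact Nat.pow_pos hn

private theorem E1_rpow {a b n : ℕ} (hb : 0 < b) :
    ((n : ℝ) ^ ((a : ℝ) / b)) ^ b = ((n ^ a : ℕ) : ℝ) := by
  have hn : (0 : ℝ) ≤ n := Nat.cast_nonneg n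
  rw [← Real.rpow_natCast, ← Real.rpow_mul hn, div_mul_cancel₀ _ (by positivity),
    Real.rpow_natCast, Nat.cast_pow]

/-- TASK E1. -/
theorem dn_ge {a b n : ℕ} (ha : 0 < a) (hab : a < b) (hn : 0 < n) :
    (n : ℝ) ^ ((a : ℝ) / b) ≤ dn a b n := by
  have hb : 0 < b := ha.trans hab
  have h := (dn_lt_iff (v := dn a b n) ha hab hn).not.1 (lt_irrefl _)
  rw [not_lt] at h
  have h2 : ((n ^ a : ℕ) : ℝ) ≤ ((dn a b n : ℝ)) ^ b := by exact_mod_cast h
  rw [← E1_rpow hb] at h2
  exact le_of_pow_le_pow_left₀ hb.ne' (Nat.cast_nonneg _) h2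

/-- TASK E1. -/
theorem dn_le_rpow {a b n : ℕ} (ha : 0 < a) (hab : a < b) (hn : 0 < n) :
    (dn a b n : ℝ) ≤ (n : ℝ) ^ ((a : ℝ) / b) + 1 := by
  have hb : 0 < b := ha.trans hab
  have hp := dn_pos (a := a) hb hn
  have h := (dn_lt_iff (v := dn a b n - 1) ha hab hn).1 (by omega)
  have h2 : (((dn a b n - 1 : ℕ) : ℝ)) ^ b < ((n ^ a : ℕ) : ℝ) := by exact_mod_cast h
  rw [← E1_rpow hb] at h2
  have h3 := lt_of_pow_lt_pow_left₀ b (by positivity) h2
  rw [Nat.cast_sub hp] at h3
  push_cast at h3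
  linarith

/-- TASK E1. -/
theorem spc_pos {e : ℝ} {n : ℕ} (hn : 0 < n) : 0 < spc e n := by
  have h : (0 : ℝ) < (n : ℝ) ^ e := Real.rpow_pos_of_pos (by exact_mod_cast hn) e
  exact lt_min hn (Nat.ceil_pos.2 h)

/-- TASK E1. -/
theorem spc_le_rpow {e : ℝ} {n : ℕ} (he : 0 ≤ e) (hn : 0 < n) : (spc e n : ℝ) ≤ 2 * (n : ℝ) ^ e := by
  have h1 : (1 : ℝ) ≤ (n : ℝ) ^ e := Real.one_le_rpow (by exact_mod_cast hn) he
  have h2 : (⌈(n : ℝ) ^ e⌉₊ : ℝ) < (n : ℝ) ^ e + 1 := Nat.ceil_lt_add_one (by linarith)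
  have h3 : (spc e n : ℝ) ≤ ⌈(n : ℝ) ^ e⌉₊ := by exact_mod_cast min_le_right _ _
  linarith

/-- TASK E1. -/
theorem rpow_le_spc {e : ℝ} {n : ℕ} (he : e ≤ 1) (hn : 0 < n) : (n : ℝ) ^ e ≤ spc e n := by
  have h1 : (n : ℝ) ^ e ≤ n := by
    have := Real.rpow_le_rpow_of_exponent_le (x := (n : ℝ)) (by exact_mod_cast hn) he
    rwa [Real.rpow_one] at this
  have h2 : (n : ℝ) ^ e ≤ ⌈(n : ℝ) ^ e⌉₊ := Nat.le_ceil _
  rw [spc, Nat.cast_min]
  exact le_min h1 h2

end Pool.Agent.D3
end

section

/-!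
Exponents: the space bounds.
-/

set_option autoImplicit false

namespace Pool.Agent.D3

private theorem E2_size_le {n : ℕ} (hn : 0 < n) :
    ((Nat.size n : ℝ)) ≤ 1 + Real.log n / Real.log 2 := by
  have hs : 0 < Nat.size n := Nat.size_pos.2 hn
  have h1 : 2 ^ (Nat.size n - 1) ≤ n := Nat.lt_size.1 (by omega)
  have h2 : (2 : ℝ) ^ (Nat.size n - 1) ≤ n := by exact_mod_cast h1
  have h3 := Real.log_le_log (by positivity) h2
  rw [Real.log_pow, Nat.cast_sub (by omega : 1 ≤ Nat.size n), Nat.cast_one] at h3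
  have hl : 0 < Real.log 2 := Real.log_pos (by norm_num)
  have h4 : ((Nat.size n : ℝ) - 1) ≤ Real.log n / Real.log 2 := by
    rw [le_div_iff₀ hl]; exact h3
  linarith

/-- TASK E2. Powers of the logarithm are bounded by `n ^ e`. -/
theorem size_pow_le {e : ℝ} (he : 0 < e) (c : ℕ) :
    ∃ k : ℕ, ∀ n : ℕ, 0 < n → ((Nat.size n : ℝ)) ^ c ≤ k * (n : ℝ) ^ e := by
  set ε : ℝ := e / (c + 1) with hε
  have hc : (0 : ℝ) < (c : ℝ) + 1 := by positivity
  have hεp : 0 < ε := div_pos he hc
  have hl : 0 < Real.log 2 := Real.log_pos (by norm_num)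
  set C : ℝ := 1 + 1 / (ε * Real.log 2) with hC
  have hCp : 0 < C := by positivity
  refine ⟨⌈C ^ c⌉₊, fun n hn => ?_⟩
  have hn1 : (1 : ℝ) ≤ n := by exact_mod_cast hn
  have hn0 : (0 : ℝ) < n := by linarith
  have hpow1 : (1 : ℝ) ≤ (n : ℝ) ^ ε := Real.one_le_rpow hn1 hεp.le
  have hlog : Real.log n ≤ (n : ℝ) ^ ε / ε := Real.log_le_rpow_div hn0.le hεp
  have h1 : (Nat.size n : ℝ) ≤ C * (n : ℝ) ^ ε := by
    refine (E2_size_le hn).trans ?_
    have h2 : Real.log n / Real.log 2 ≤ (n : ℝ) ^ ε / ε / Real.log 2 :=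
      div_le_div_of_nonneg_right hlog hl.le
    have h3 : (n : ℝ) ^ ε / ε / Real.log 2 = 1 / (ε * Real.log 2) * (n : ℝ) ^ ε := by
      field_simp
    rw [hC, add_mul, one_mul, ← h3]
    linarith
  calc ((Nat.size n : ℝ)) ^ c ≤ (C * (n : ℝ) ^ ε) ^ c :=
        pow_le_pow_left₀ (Nat.cast_nonneg _) h1 c
    _ = C ^ c * ((n : ℝ) ^ ε) ^ c := mul_pow _ _ _
    _ = C ^ c * (n : ℝ) ^ (ε * c) := by rw [← Real.rpow_natCast ((n : ℝ) ^ ε) c, ← Real.rpow_mul hn0.le]
    _ ≤ C ^ c * (n : ℝ) ^ e := by
        refine mul_le_mul_of_nonneg_left ?_ (by positivity)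
        refine Real.rpow_le_rpow_of_exponent_le hn1 ?_
        rw [hε, div_mul_eq_mul_div, div_le_iff₀ hc]
        nlinarith
    _ ≤ (⌈C ^ c⌉₊ : ℝ) * (n : ℝ) ^ e :=
        mul_le_mul_of_nonneg_right (Nat.le_ceil _) (by positivity)

/-- TASK E2. The space for the list `R`. -/
theorem space_list {a b : ℕ} {e : ℝ} (ha : 0 < a) (hab : a < b) (h : 1 - (a : ℝ) / b < e)
    (he : e ≤ 1) :
    ∃ k : ℕ, ∀ n : ℕ, 0 < n → (n / (dn a b n + 1)) * (2 * Nat.size n + 1) ≤ k * spc e n := by
  have hg : 0 < e - (1 - (a : ℝ) / b) := by linarith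
  obtain ⟨k1, hk1⟩ := size_pow_le hg 1
  refine ⟨3 * k1, fun n hn => ?_⟩
  have hn1 : (1 : ℝ) ≤ n := by exact_mod_cast hn
  have hn0 : (0 : ℝ) < n := by linarith
  have hd := dn_ge ha hab hn
  have hdp : 0 < (n : ℝ) ^ ((a : ℝ) / b) := Real.rpow_pos_of_pos hn0 _
  have h1 : ((n / (dn a b n + 1) : ℕ) : ℝ) ≤ (n : ℝ) ^ (1 - (a : ℝ) / b) := by
    refine Nat.cast_div_le.trans ?_
    rw [Real.rpow_sub hn0, Real.rpow_one]
    push_cast
    exact div_le_div_of_nonneg_left hn0.le hdp (by linarith)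
  have hs : 0 < Nat.size n := Nat.size_pos.2 hn
  have h2 : ((2 * Nat.size n + 1 : ℕ) : ℝ) ≤ 3 * (k1 * (n : ℝ) ^ (e - (1 - (a : ℝ) / b))) := by
    have h3 := hk1 n hn
    rw [pow_one] at h3
    have h4 : (1 : ℝ) ≤ Nat.size n := by exact_mod_cast hs
    push_cast
    linarith
  have h5 : (((n / (dn a b n + 1)) * (2 * Nat.size n + 1) : ℕ) : ℝ) ≤
      ((3 * k1 * spc e n : ℕ) : ℝ) := by
    rw [Nat.cast_mul]
    calc ((n / (dn a b n + 1) : ℕ) : ℝ) * ((2 * Nat.size n + 1 : ℕ) : ℝ)
        ≤ (n : ℝ) ^ (1 - (a : ℝ) / b) * (3 * (k1 * (n : ℝ) ^ (e - (1 - (a : ℝ) / b)))) :=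
          mul_le_mul h1 h2 (Nat.cast_nonneg _) (by positivity)
      _ = 3 * k1 * ((n : ℝ) ^ (1 - (a : ℝ) / b) * (n : ℝ) ^ (e - (1 - (a : ℝ) / b))) := by ring
      _ = 3 * k1 * (n : ℝ) ^ e := by
          rw [← Real.rpow_add hn0]
          congr 2
          ring
      _ ≤ 3 * k1 * spc e n :=
          mul_le_mul_of_nonneg_left (rpow_le_spc he hn) (by positivity)
      _ = ((3 * k1 * spc e n : ℕ) : ℝ) := by push_cast; ring
  exact_mod_cast h5

/-- TASK E2. The space for the given machine. -/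
theorem space_machine {a b : ℕ} {e e' : ℝ} (ha : 0 < a) (hab : a < b) (he0 : 0 < e) (he1 : e ≤ 1)
    (h : (1 + (a : ℝ) / b) * e ≤ e') (he' : e' ≤ 1) :
    ∃ k : ℕ, ∀ n : ℕ, 0 < n → ((n * (2 * dn a b n + 1) : ℕ) : ℝ) ^ e ≤ k * spc e' n := by
  refine ⟨5, fun n hn => ?_⟩
  have hn1 : (1 : ℝ) ≤ n := by exact_mod_cast hn
  have hn0 : (0 : ℝ) < n := by linarith
  have hd := dn_le_rpow ha hab hn
  have hδ : 0 ≤ (a : ℝ) / b := by positivity
  have hp : (1 : ℝ) ≤ (n : ℝ) ^ ((a : ℝ) / b) := Real.one_le_rpow hn1 hδ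
  have h1 : ((n * (2 * dn a b n + 1) : ℕ) : ℝ) ≤ 5 * (n : ℝ) ^ (1 + (a : ℝ) / b) := by
    rw [Real.rpow_add hn0, Real.rpow_one]
    push_cast
    have h2 : 2 * (dn a b n : ℝ) + 1 ≤ 5 * (n : ℝ) ^ ((a : ℝ) / b) := by linarith
    calc (n : ℝ) * (2 * (dn a b n : ℝ) + 1) ≤ n * (5 * (n : ℝ) ^ ((a : ℝ) / b)) :=
          mul_le_mul_of_nonneg_left h2 hn0.le
      _ = 5 * ((n : ℝ) * (n : ℝ) ^ ((a : ℝ) / b)) := by ring
  calc ((n * (2 * dn a b n + 1) : ℕ) : ℝ) ^ e
      ≤ (5 * (n : ℝ) ^ (1 + (a : ℝ) / b)) ^ e :=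
        Real.rpow_le_rpow (Nat.cast_nonneg _) h1 he0.le
    _ = 5 ^ e * (n : ℝ) ^ ((1 + (a : ℝ) / b) * e) := by
        rw [Real.mul_rpow (by norm_num) (by positivity), ← Real.rpow_mul hn0.le]
    _ ≤ 5 * (n : ℝ) ^ e' := by
        refine mul_le_mul ?_ (Real.rpow_le_rpow_of_exponent_le hn1 h) (by positivity) (by norm_num)
        calc (5 : ℝ) ^ e ≤ 5 ^ (1 : ℝ) := Real.rpow_le_rpow_of_exponent_le (by norm_num) he1
          _ = 5 := Real.rpow_one 5
    _ ≤ 5 * spc e' n := mul_le_mul_of_nonneg_left (rpow_le_spc he' hn) (by norm_num)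
    _ = ((5 : ℕ) : ℝ) * spc e' n := by norm_num

/-- TASK E2. The choice of the exponents: `a / b` is a rational number between `1 - e'` and
`e' / e - 1`. -/
theorem exists_ab {e e' : ℝ} (he0 : 0 < e) (he1 : e < 1) (h : 2 * e / (1 + e) < e') (he' : e' < 1) :
    ∃ a b : ℕ, 0 < a ∧ a < b ∧ 1 - (a : ℝ) / b < e' ∧ (1 + (a : ℝ) / b) * e ≤ e' := by
  have he'0 : 0 < e' := lt_trans (by positivity) h
  have h1 : 2 * e < e' * (1 + e) := by rwa [div_lt_iff₀ (by linarith)] at h
  have h2 : 1 - e' < min (e' / e - 1) 1 := by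
    refine lt_min ?_ (by linarith)
    have h3 : 2 < e' / e + e' := by
      have h4 : e' / e + e' = e' * (1 + e) / e := by
        rw [mul_add, mul_one, add_div, mul_div_assoc, div_self he0.ne', mul_one]
      rw [h4, lt_div_iff₀ he0]
      exact h1
    linarith
  obtain ⟨q, hq1, hq2⟩ := exists_rat_btwn h2
  have hq0 : (0 : ℝ) < q := by linarith
  have hq0' : 0 < q := by exact_mod_cast hq0
  have hnum : 0 < q.num := Rat.num_pos.2 hq0'
  have hden : 0 < q.den := q.den_pos
  have hcast : ((q.num.toNat : ℕ) : ℝ) / (q.den : ℝ) = q := by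
    have h5 : ((q.num.toNat : ℕ) : ℤ) = q.num := Int.toNat_of_nonneg hnum.le
    have h6 : ((q.num.toNat : ℕ) : ℝ) = ((q.num : ℤ) : ℝ) := by
      exact_mod_cast congrArg (fun z : ℤ => (z : ℝ)) h5
    rw [h6]
    exact (Rat.cast_def q).symm
  refine ⟨q.num.toNat, q.den, by omega, ?_, ?_, ?_⟩
  · have h7 : (q : ℝ) < 1 := hq2.trans_le (min_le_right _ _)
    rw [← hcast, div_lt_one (by exact_mod_cast hden)] at h7
    exact_mod_cast h7
  · rw [hcast]; linarith
  · rw [hcast]
    have h8 : (q : ℝ) < e' / e - 1 := hq2.trans_le (min_le_left _ _)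
    have h9 : (1 + (q : ℝ)) < e' / e := by linarith
    rw [lt_div_iff₀ he0] at h9
    exact h9.le

end Pool.Agent.D3
end
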