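import Mathlib
import Pool.Agent.Lib.MP_f83138_lc.Mono.Defs

section

set_option autoImplicit false

/-!
# Monotone memory programs
-/

namespace Pool.Agent.Lib.MP_f83138_lc.Mono

open Finset

variable {X : Type*} {w r : ℕ} {α : Type*} [LinearOrder α]

theorem run_append (l l' : List (MonoStep X w r α)) (σ : Fin w → α) (E : Set X) :
    run (l ++ l') σ E = run l' (run l σ E) E := by
  unfold run
  rw [List.foldl_append]

theorem run_mono (l : List (MonoStep X w r α)) {σ σ' : Fin w → α} (h : σ ≤ σ') (E : Set X) :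
    run l σ E ≤ run l σ' E := by
  induction l generalizing σ σ' with
  | nil => exact h
  | cons s l ih => exact ih (s.mono _ _ h _ _ (Set.Subset.refl E))

/-- The final content of the register `o` is at least `θ` on the inputs `G a` with `a ∈ A`, and less
than `θ` on the inputs `H b` with `b ∈ B`. -/
def Sep {P Q : Type*} (G : P → Set X) (H : Q → Set X) (l : List (MonoStep X w r α))
    (σ : Fin w → α) (o : Fin w) (θ : α) (A : Set P) (B : Set Q) : Prop :=
  (∀ a ∈ A, θ ≤ run l σ (G a) o) ∧ ∀ b ∈ B, run l σ (H b) o < θ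

/-- A size of subsets. -/
structure IsSize {P : Type*} (d : Set P → ℝ) : Prop where
  empty : d ∅ = 0
  mono : ∀ A B, A ⊆ B → d A ≤ d B
  union : ∀ A B, d (A ∪ B) ≤ d A + d B

theorem IsSize.iUnion {P : Type*} {d : Set P → ℝ} (hd : IsSize d) {w : ℕ} {R : Fin w → Set P}
    {c : ℝ} (h : ∀ i, d (R i) ≤ c) : d (⋃ i, R i) ≤ w * c := by
  induction w with
  | zero =>
    rw [Set.iUnion_of_empty, hd.empty, Nat.cast_zero, zero_mul]
  | succ w ih =>
    have h1 : (⋃ i, R i) = R 0 ∪ ⋃ i : Fin w, R i.succ := by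
      ext x
      simp only [Set.mem_iUnion, Set.mem_union]
      constructor
      · rintro ⟨i, hi⟩
        induction i using Fin.cases with
        | zero => exact Or.inl hi
        | succ i => exact Or.inr ⟨i, hi⟩
      · rintro (h | ⟨i, hi⟩)
        · exact ⟨0, h⟩
        · exact ⟨i.succ, hi⟩
    rw [h1]
    have h2 := hd.union (R 0) (⋃ i : Fin w, R i.succ)
    have h3 := ih (R := fun i => R i.succ) fun i => h _
    have h4 := h 0
    push_cast
    linarith

theorem IsSize.le_diff_add {P : Type*} {d : Set P → ℝ} (hd : IsSize d) (A R : Set P) :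
    d A ≤ d (A \ R) + d R := by
  refine le_trans (hd.mono _ _ fun x hx => ?_) (hd.union (A \ R) R)
  by_cases h : x ∈ R
  · exact Or.inr h
  · exact Or.inl ⟨hx, h⟩

/-- One register. -/
theorem one_register {P Q : Type*} [Finite P] {dP : Set P → ℝ} {dQ : Set Q → ℝ}
    (hP : IsSize dP) (hQ : IsSize dQ) {μ : ℝ} (hμ : 0 ≤ μ) (A : Set P) (B : Set Q) (f : P → α)
    (g : Q → α)
    (h : ∀ θ, ¬ (μ ≤ dP {a | a ∈ A ∧ θ ≤ f a} ∧ μ ≤ dQ {b | b ∈ B ∧ g b < θ})) :
    ∃ (R : Set P) (S : Set Q), dP R ≤ μ ∧ dQ S ≤ μ ∧ ∀ a ∈ A \ R, ∀ b ∈ B \ S, f a ≤ g b := by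
  obtain ⟨R, hR⟩ : ∃ R : Set P, R = {a | a ∈ A ∧ dP {a' | a' ∈ A ∧ f a ≤ f a'} < μ} := ⟨_, rfl⟩
  refine ⟨R, {b | b ∈ B ∧ ∃ a ∈ A \ R, g b < f a}, ?_, ?_, ?_⟩
  · rcases Set.eq_empty_or_nonempty R with h0 | h0
    · rw [h0, hP.empty]
      exact hμ
    · obtain ⟨a₀, ha₀, hmin⟩ := Set.exists_min_image R f (Set.toFinite R) h0
      have h1 : dP {a' | a' ∈ A ∧ f a₀ ≤ f a'} < μ := by
        rw [hR] at ha₀
        exact ha₀.2
      refine le_trans (hP.mono R {a' | a' ∈ A ∧ f a₀ ≤ f a'} fun a ha => ?_) h1.le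
      refine ⟨?_, hmin a ha⟩
      rw [hR] at ha
      exact ha.1
  · rcases Set.eq_empty_or_nonempty (A \ R) with h0 | h0
    · have h1 : {b | b ∈ B ∧ ∃ a ∈ A \ R, g b < f a} = (∅ : Set Q) := by
        ext b
        rw [h0]
        simp
      rw [h1, hQ.empty]
      exact hμ
    · obtain ⟨a₁, ha₁, hmax⟩ := Set.exists_max_image (A \ R) f (Set.toFinite _) h0
      have h1 : μ ≤ dP {a' | a' ∈ A ∧ f a₁ ≤ f a'} := by
        by_contra hcon
        apply ha₁.2
        rw [hR]
        exact ⟨ha₁.1, not_le.1 hcon⟩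
      have h2 : dQ {b | b ∈ B ∧ g b < f a₁} < μ := by
        by_contra hcon
        exact h (f a₁) ⟨h1, not_lt.1 hcon⟩
      refine le_trans (hQ.mono _ {b | b ∈ B ∧ g b < f a₁} fun b hb => ?_) h2.le
      obtain ⟨a, ha, hab⟩ := hb.2
      exact ⟨hb.1, hab.trans_le (hmax a ha)⟩
  · intro a ha b hb
    by_contra hcon
    exact hb.2 ⟨hb.1, a, ha, not_le.1 hcon⟩

/-- A common bound for the memories. -/
theorem exists_between {P Q : Type*} [Finite P] {A : Set P} (hA : A.Nonempty) {B : Set Q}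
    {f : P → Fin w → α} {g : Q → Fin w → α} (h : ∀ a ∈ A, ∀ b ∈ B, f a ≤ g b) :
    ∃ τ : Fin w → α, (∀ a ∈ A, f a ≤ τ) ∧ ∀ b ∈ B, τ ≤ g b := by
  have h1 : ∀ i : Fin w, ∃ a ∈ A, ∀ a' ∈ A, f a' i ≤ f a i := fun i =>
    Set.exists_max_image A (fun a => f a i) (Set.toFinite A) hA
  choose c hc hc' using h1
  exact ⟨fun i => f (c i) i, fun a ha i => hc' i a ha, fun b hb i => h _ (hc i) b hb i⟩

/-- The time lemma. -/
theorem time_lemma {P Q : Type*} [Finite P] {G : P → Set X} {H : Q → Set X} {dP : Set P → ℝ}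
    {dQ : Set Q → ℝ} (hP : IsSize dP) (hQ : IsSize dQ) {μ : ℝ} (hμ : 0 < μ) {N : ℕ} {A₀ : Set P}
    {B₀ : Set Q}
    (hno : ∀ A ⊆ A₀, ∀ B ⊆ B₀, μ ≤ dP A → μ ≤ dQ B → ∀ l : List (MonoStep X w r α),
      l.length ≤ N → ∀ σ o θ, ¬ Sep G H l σ o θ A B) (K : ℕ) :
    ∀ l : List (MonoStep X w r α), l.length ≤ K * N → ∀ σ, ∃ A ⊆ A₀, ∃ B ⊆ B₀,
      dP A₀ ≤ dP A + K * w * μ ∧ dQ B₀ ≤ dQ B + K * w * μ ∧
      ∀ a ∈ A, ∀ b ∈ B, run l σ (G a) ≤ run l σ (H b) := by
  induction K with
  | zero =>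
    intro l hl σ
    rw [zero_mul, Nat.le_zero, List.length_eq_zero_iff] at hl
    subst hl
    refine ⟨A₀, Set.Subset.refl _, B₀, Set.Subset.refl _, ?_, ?_, fun a _ b _ => le_rfl⟩ <;> simp
  | succ K ih =>
    intro l hl σ
    obtain ⟨A₁, hA₁, B₁, hB₁, hdA, hdB, h1⟩ := ih (l.take (K * N)) (by
      rw [List.length_take]; exact min_le_left _ _) σ
    have hl2 : (l.drop (K * N)).length ≤ N := by
      rw [List.length_drop]
      rw [Nat.succ_mul] at hl
      omega
    have hrun : ∀ E, run l σ E = run (l.drop (K * N)) (run (l.take (K * N)) σ E) E := by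
      intro E
      rw [← run_append, List.take_append_drop]
    have h2 : ∀ i : Fin w, ∃ (R : Set P) (S : Set Q), dP R ≤ μ ∧ dQ S ≤ μ ∧
        ∀ a ∈ A₁ \ R, ∀ b ∈ B₁ \ S, run l σ (G a) i ≤ run l σ (H b) i := by
      intro i
      refine one_register hP hQ hμ.le A₁ B₁ (fun a => run l σ (G a) i)
        (fun b => run l σ (H b) i) fun θ hθ => ?_
      rcases Set.eq_empty_or_nonempty A₁ with h0 | h0
      · have h3 : {a | a ∈ A₁ ∧ θ ≤ run l σ (G a) i} = (∅ : Set P) := by
          ext a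
          rw [h0]
          simp
        rw [h3, hP.empty] at hθ
        exact absurd hθ.1 (not_le.2 hμ)
      · obtain ⟨τ, hτ1, hτ2⟩ := exists_between h0 h1
        refine hno {a | a ∈ A₁ ∧ θ ≤ run l σ (G a) i} (fun a ha => hA₁ ha.1)
          {b | b ∈ B₁ ∧ run l σ (H b) i < θ} (fun b hb => hB₁ hb.1) hθ.1 hθ.2
          (l.drop (K * N)) hl2 τ i θ ⟨fun a ha => ?_, fun b hb => ?_⟩
        · refine le_trans ha.2 ?_
          rw [hrun]
          exact run_mono _ (hτ1 a ha.1) _ i
        · refine lt_of_le_of_lt ?_ hb.2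
          rw [hrun]
          exact run_mono _ (hτ2 b hb.1) _ i
    choose R S hR hS hRS using h2
    refine ⟨A₁ \ ⋃ i, R i, fun a ha => hA₁ ha.1, B₁ \ ⋃ i, S i, fun b hb => hB₁ hb.1, ?_, ?_, ?_⟩
    · have h3 := hP.le_diff_add A₁ (⋃ i, R i)
      have h4 := hP.iUnion hR
      push_cast
      linarith
    · have h3 := hQ.le_diff_add B₁ (⋃ i, S i)
      have h4 := hQ.iUnion hS
      push_cast
      linarith
    · intro a ha b hb i
      exact hRS i a ⟨ha.1, fun h => ha.2 (Set.mem_iUnion_of_mem i h)⟩ b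
        ⟨hb.1, fun h => hb.2 (Set.mem_iUnion_of_mem i h)⟩

/-- The time lemma, second form. -/
theorem time_lemma' {P Q : Type*} [Finite P] {G : P → Set X} {H : Q → Set X} {dP : Set P → ℝ}
    {dQ : Set Q → ℝ} (hP : IsSize dP) (hQ : IsSize dQ) {μ μ' : ℝ} (hμ : 0 < μ) {N : ℕ} {A₀ : Set P}
    {B₀ : Set Q}
    (hno : ∀ A ⊆ A₀, ∀ B ⊆ B₀, μ ≤ dP A → μ ≤ dQ B → ∀ l : List (MonoStep X w r α),
      l.length ≤ N → ∀ σ o θ, ¬ Sep G H l σ o θ A B) {K : ℕ} (hK : K * w * μ < μ')
    (hA₀ : μ' ≤ dP A₀) (hB₀ : μ' ≤ dQ B₀) (l : List (MonoStep X w r α)) (hl : l.length ≤ K * N)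
    (σ : Fin w → α) (o : Fin w) (θ : α) : ¬ Sep G H l σ o θ A₀ B₀ := by
  intro hsep
  obtain ⟨A, hA, B, hB, hdA, hdB, h1⟩ := time_lemma hP hQ hμ hno K l hl σ
  obtain ⟨a, ha⟩ : A.Nonempty := by
    by_contra h0
    rw [Set.not_nonempty_iff_eq_empty.1 h0, hP.empty] at hdA
    linarith
  obtain ⟨b, hb⟩ : B.Nonempty := by
    by_contra h0
    rw [Set.not_nonempty_iff_eq_empty.1 h0, hQ.empty] at hdB
    linarith
  exact absurd ((hsep.1 a (hA ha)).trans (h1 a ha b hb o)) (not_le.2 (hsep.2 b (hB hb)))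

end Pool.Agent.Lib.MP_f83138_lc.Mono
end

section

set_option autoImplicit false

/-!
# Averages over finite sets, probabilities, and conditioning on coordinates
-/

namespace Pool.Agent.Lib.MP_f83138_lc.Mono

open Finset

section Basic

variable {Ω Ω' : Type*} [Fintype Ω] [Fintype Ω']

/-- The average of a function on a finite type. -/
noncomputable def avg (f : Ω → ℝ) : ℝ := (∑ x, f x) / Fintype.card Ω

open Classical in
/-- The proportion of the elements with a property. -/
noncomputable def pr (p : Ω → Prop) : ℝ := avg fun x => if p x then 1 else 0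

theorem avg_mono {f g : Ω → ℝ} (h : ∀ x, f x ≤ g x) : avg f ≤ avg g :=
  div_le_div_of_nonneg_right (Finset.sum_le_sum fun x _ => h x) (Nat.cast_nonneg _)

theorem avg_congr {f g : Ω → ℝ} (h : ∀ x, f x = g x) : avg f = avg g := by
  rw [show f = g from funext h]

theorem avg_const [Nonempty Ω] (c : ℝ) : avg (fun _ : Ω => c) = c := by
  unfold avg
  rw [Finset.sum_const, Finset.card_univ, nsmul_eq_mul]
  have : (Fintype.card Ω : ℝ) ≠ 0 := by exact_mod_cast Fintype.card_ne_zero
  field_simp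

theorem avg_add (f g : Ω → ℝ) : avg (fun x => f x + g x) = avg f + avg g := by
  unfold avg
  rw [Finset.sum_add_distrib, add_div]

theorem avg_mul_left (c : ℝ) (f : Ω → ℝ) : avg (fun x => c * f x) = c * avg f := by
  unfold avg
  rw [← Finset.mul_sum, mul_div_assoc]

theorem avg_mul_right (c : ℝ) (f : Ω → ℝ) : avg (fun x => f x * c) = avg f * c := by
  unfold avg
  rw [← Finset.sum_mul, div_mul_eq_mul_div]

theorem avg_nonneg {f : Ω → ℝ} (h : ∀ x, 0 ≤ f x) : 0 ≤ avg f :=
  div_nonneg (Finset.sum_nonneg fun x _ => h x) (Nat.cast_nonneg _)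

theorem avg_le_of_le {f : Ω → ℝ} {c : ℝ} (hc : 0 ≤ c) (h : ∀ x, f x ≤ c) : avg f ≤ c := by
  rcases isEmpty_or_nonempty Ω with h0 | h0
  · unfold avg
    rw [Finset.sum_of_isEmpty, zero_div]
    exact hc
  · exact (avg_mono h).trans (avg_const c).le

theorem avg_equiv (e : Ω ≃ Ω') (f : Ω' → ℝ) : avg (fun x => f (e x)) = avg f := by
  unfold avg
  rw [Equiv.sum_comp e f, Fintype.card_congr e]

theorem avg_prod (f : Ω × Ω' → ℝ) : avg f = avg fun x => avg fun y => f (x, y) := by
  unfold avg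
  rw [Fintype.sum_prod_type, Fintype.card_prod, Nat.cast_mul, ← Finset.sum_div, div_div,
    mul_comm (Fintype.card Ω' : ℝ)]

theorem avg_comm (f : Ω → Ω' → ℝ) :
    (avg fun x => avg fun y => f x y) = avg fun y => avg fun x => f x y := by
  have h1 := avg_prod (fun z : Ω × Ω' => f z.1 z.2)
  have h2 := avg_prod (fun z : Ω' × Ω => f z.2 z.1)
  have h3 := avg_equiv (Equiv.prodComm Ω Ω') (fun z : Ω' × Ω => f z.2 z.1)
  simp only at h1 h2
  rw [← h1, ← h2, ← h3]
  rfl

theorem exists_ge_of_avg [Nonempty Ω] {f : Ω → ℝ} {c : ℝ} (h : c ≤ avg f) : ∃ x, c ≤ f x := by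
  by_contra hcon
  push Not at hcon
  have h1 : avg f < c := by
    unfold avg
    have hc : (0 : ℝ) < Fintype.card Ω := by exact_mod_cast Fintype.card_pos
    rw [div_lt_iff₀ hc]
    calc ∑ x, f x < ∑ _x : Ω, c :=
          Finset.sum_lt_sum_of_nonempty Finset.univ_nonempty fun x _ => hcon x
      _ = c * Fintype.card Ω := by
          rw [Finset.sum_const, Finset.card_univ, nsmul_eq_mul, mul_comm]
  exact absurd h (not_le.2 h1)

theorem pr_nonneg (p : Ω → Prop) : 0 ≤ pr p :=
  avg_nonneg fun x => by split_ifs <;> norm_num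

theorem pr_le_one (p : Ω → Prop) : pr p ≤ 1 :=
  avg_le_of_le zero_le_one fun x => by split_ifs <;> norm_num

theorem pr_mono {p q : Ω → Prop} (h : ∀ x, p x → q x) : pr p ≤ pr q := by
  classical
  refine avg_mono fun x => ?_
  by_cases hp : p x
  · rw [if_pos hp, if_pos (h x hp)]
  · rw [if_neg hp]
    split_ifs <;> norm_num

theorem pr_congr {p q : Ω → Prop} (h : ∀ x, p x ↔ q x) : pr p = pr q := by
  rw [show p = q from funext fun x => propext (h x)]

theorem pr_or (p q : Ω → Prop) : pr (fun x => p x ∨ q x) ≤ pr p + pr q := by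
  classical
  unfold pr
  rw [← avg_add]
  refine avg_mono fun x => ?_
  by_cases hp : p x <;> by_cases hq : q x <;> simp [hp, hq]

theorem pr_exists {ι : Type*} (s : Finset ι) (p : ι → Ω → Prop) :
    pr (fun x => ∃ i ∈ s, p i x) ≤ ∑ i ∈ s, pr (p i) := by
  classical
  induction s using Finset.induction_on with
  | empty =>
    simp only [Finset.sum_empty]
    unfold pr
    refine avg_le_of_le le_rfl fun x => ?_
    simp
  | insert a s ha ih =>
    rw [Finset.sum_insert ha]
    refine le_trans (pr_mono fun x hx => ?_) ((pr_or _ _).trans (add_le_add_right ih _))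
    obtain ⟨i, hi, hp⟩ := hx
    rcases Finset.mem_insert.1 hi with rfl | hi
    · exact Or.inl hp
    · exact Or.inr ⟨i, hi, hp⟩

theorem pr_false : pr (fun _ : Ω => False) = 0 := by
  unfold pr avg
  simp

theorem pr_true [Nonempty Ω] : pr (fun _ : Ω => True) = 1 := by
  unfold pr
  simp [avg_const]

theorem exists_of_pr_pos {p : Ω → Prop} (h : 0 < pr p) : ∃ x, p x := by
  by_contra hcon
  push Not at hcon
  have : pr p = 0 := by
    rw [← pr_false (Ω := Ω)]
    exact pr_congr fun x => iff_of_false (hcon x) id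
  exact absurd h (by rw [this]; exact lt_irrefl 0)

theorem pr_equiv (e : Ω ≃ Ω') (p : Ω' → Prop) : pr (fun x => p (e x)) = pr p := by
  classical
  exact avg_equiv e (fun y => if p y then (1 : ℝ) else 0)

theorem pr_eq_card (p : Ω → Prop) [DecidablePred p] :
    pr p = (Finset.univ.filter p).card / Fintype.card Ω := by
  classical
  unfold pr avg
  congr 1
  rw [Finset.card_filter]
  push_cast
  exact Finset.sum_congr rfl fun x _ => by congr

/-- A probability is at most the probability of a large value plus a bound for the others. -/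
theorem avg_le_pr_add {f : Ω → ℝ} {c : ℝ} (hc : 0 ≤ c) (h1 : ∀ x, f x ≤ 1) :
    avg f ≤ pr (fun x => c < f x) + c := by
  classical
  have h2 : avg f ≤ avg fun x => (if c < f x then (1 : ℝ) else 0) + c := by
    refine avg_mono fun x => ?_
    split_ifs with h
    · linarith [h1 x]
    · linarith [not_lt.1 h]
  rw [avg_add] at h2
  exact h2.trans (add_le_add_right (avg_le_of_le hc fun _ => le_rfl) _)

end Basic

section Coordinates

variable {ι V : Type*} [Fintype ι] [DecidableEq ι] [Fintype V]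

/-- Exchanging the coordinates outside a set. -/
def swapEquiv (S : Finset ι) : ((ι → V) × (ι → V)) ≃ ((ι → V) × (ι → V)) where
  toFun z := (S.piecewise z.1 z.2, S.piecewise z.2 z.1)
  invFun z := (S.piecewise z.1 z.2, S.piecewise z.2 z.1)
  left_inv z := by
    ext i <;> by_cases hi : i ∈ S <;> simp [Finset.piecewise, hi]
  right_inv z := by
    ext i <;> by_cases hi : i ∈ S <;> simp [Finset.piecewise, hi]

/-- Averaging first over the coordinates in `S`, then over the others. -/
theorem avg_tower [Nonempty V] (S : Finset ι) (F : (ι → V) → ℝ) :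
    (avg fun x => avg fun y => F (S.piecewise x y)) = avg F := by
  have h1 := avg_prod (fun z : (ι → V) × (ι → V) => F (S.piecewise z.1 z.2))
  have h2 := avg_equiv (swapEquiv (V := V) S) (fun z => F z.1)
  have h3 := avg_prod (fun z : (ι → V) × (ι → V) => F z.1)
  simp only at h1 h3
  rw [← h1]
  refine Eq.trans h2 (h3.trans ?_)
  refine avg_congr fun x => avg_const _

theorem avg_update (i : ι) (F : (ι → V) → ℝ) :
    (avg fun v => avg fun x => F (Function.update x i v)) = avg F := by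
  have h1 := avg_equiv (Equiv.funSplitAt i V).symm F
  have h2 := avg_prod (fun z : V × ({j // j ≠ i} → V) => F ((Equiv.funSplitAt i V).symm z))
  rw [← h1, h2]
  refine avg_congr fun v => ?_
  have h3 := avg_equiv (Equiv.funSplitAt i V).symm (fun x => F (Function.update x i v))
  have h4 := avg_prod (fun z : V × ({j // j ≠ i} → V) =>
    F (Function.update ((Equiv.funSplitAt i V).symm z) i v))
  have : Nonempty V := ⟨v⟩
  rw [← h3, h4]
  have h5 : ∀ (v' : V) (y : {j // j ≠ i} → V),
      Function.update ((Equiv.funSplitAt i V).symm (v', y)) i v =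
        (Equiv.funSplitAt i V).symm (v, y) := by
    intro v' y
    funext j
    by_cases hj : j = i
    · subst hj
      simp [Equiv.funSplitAt, Equiv.piSplitAt]
    · simp [Equiv.funSplitAt, Equiv.piSplitAt, hj]
  simp only [h5]
  exact avg_const _

end Coordinates

end Pool.Agent.Lib.MP_f83138_lc.Mono
end

section

set_option autoImplicit false

/-!
# Dense families of sequences and dense families of sequences of sets
-/

namespace Pool.Agent.Lib.MP_f83138_lc.Mono

open Finset

section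

variable {V : Type*} [Fintype V] [DecidableEq V]

theorem pr_superset (T : Finset V) : pr (fun c : Finset V => T ⊆ c) = (1 / 2 : ℝ) ^ T.card := by
  rw [pr_eq_card]
  have h1 : (Finset.univ.filter fun c : Finset V => T ⊆ c) = Finset.Icc T Finset.univ := by
    ext c
    simp
  have h2 : T.card ≤ Fintype.card V := Finset.card_le_univ T
  rw [h1, Finset.card_Icc_finset (Finset.subset_univ T), Fintype.card_finset, Finset.card_univ]
  push_cast
  rw [pow_sub₀ _ (by norm_num) h2, one_div, inv_pow]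
  have h3 : (2 : ℝ) ^ Fintype.card V ≠ 0 := by positivity
  field_simp

theorem exists_not_mem {k : ℕ} {P : V → Prop} {Q : Finset V → Prop}
    (hP : (k : ℝ) / Fintype.card V < pr P) (hQ : (1 / 2 : ℝ) ^ k < pr Q) :
    ∃ v c, P v ∧ Q c ∧ v ∉ c := by
  classical
  by_contra hcon
  push Not at hcon
  have h1 : pr Q ≤ pr fun c : Finset V => Finset.univ.filter P ⊆ c := by
    refine pr_mono fun c hc v hv => ?_
    exact hcon v c (Finset.mem_filter.1 hv).2 hc
  rw [pr_superset] at h1
  have h2 : k ≤ (Finset.univ.filter P).card := by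
    rw [pr_eq_card] at hP
    have hV : (0 : ℝ) < Fintype.card V := by
      rcases Nat.eq_zero_or_pos (Fintype.card V) with h0 | h0
      · rw [h0] at hP
        simp at hP
      · exact_mod_cast h0
    rw [div_lt_div_iff_of_pos_right hV] at hP
    exact_mod_cast hP.le
  have h3 : (1 / 2 : ℝ) ^ (Finset.univ.filter P).card ≤ (1 / 2 : ℝ) ^ k :=
    pow_le_pow_of_le_one (by norm_num) (by norm_num) h2
  linarith

variable {ι : Type*} [Fintype ι] [DecidableEq ι]

/-- If `R` is a dense family of sequences and `D` a dense family of sequences of sets, some member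
of `R` avoids some member of `D`. -/
theorem exists_avoid (k : ℕ) (S : Finset ι) :
    ∀ (R : (ι → V) → Prop) (D : (ι → Finset V) → Prop),
      (S.card : ℝ) * (k / Fintype.card V) < pr R → (S.card : ℝ) * (1 / 2) ^ k < pr D →
        ∃ r C, R r ∧ D C ∧ ∀ i ∈ S, r i ∉ C i := by
  classical
  induction S using Finset.induction_on with
  | empty =>
    intro R D hR hD
    rw [Finset.card_empty, Nat.cast_zero, zero_mul] at hR hD
    obtain ⟨r, hr⟩ := exists_of_pr_pos hR
    obtain ⟨C, hC⟩ := exists_of_pr_pos hD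
    exact ⟨r, C, hr, hC, fun i hi => absurd hi (Finset.notMem_empty i)⟩
  | insert i S hi ih =>
    intro R D hR hD
    have h1 : pr R = avg fun v => pr fun x => R (Function.update x i v) :=
      (avg_update i (fun x => if R x then (1 : ℝ) else 0)).symm
    have h2 : pr D = avg fun c => pr fun X => D (Function.update X i c) :=
      (avg_update i (fun x => if D x then (1 : ℝ) else 0)).symm
    have hk : (0 : ℝ) ≤ (S.card : ℝ) * (k / Fintype.card V) := by positivity
    have hk' : (0 : ℝ) ≤ (S.card : ℝ) * (1 / 2) ^ k := by positivity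
    have h3 := avg_le_pr_add (f := fun v => pr fun x => R (Function.update x i v)) hk
      (fun v => pr_le_one _)
    have h4 := avg_le_pr_add (f := fun c => pr fun X => D (Function.update X i c)) hk'
      (fun v => pr_le_one _)
    rw [← h1] at h3
    rw [← h2] at h4
    rw [Finset.card_insert_of_notMem hi] at hR hD
    push_cast at hR hD
    obtain ⟨v, c, hv, hc, hvc⟩ := exists_not_mem (k := k)
      (P := fun v => (S.card : ℝ) * (k / Fintype.card V) < pr fun x => R (Function.update x i v))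
      (Q := fun c => (S.card : ℝ) * (1 / 2) ^ k < pr fun X => D (Function.update X i c))
      (by linarith) (by linarith)
    obtain ⟨r, C, hr, hC, hrC⟩ := ih _ _ hv hc
    refine ⟨Function.update r i v, Function.update C i c, hr, hC, fun j hj => ?_⟩
    by_cases hji : j = i
    · subst hji
      simpa using hvc
    · have hj' : j ∈ S := by
        rcases Finset.mem_insert.1 hj with h | h
        · exact absurd h hji
        · exact h
      simpa [Function.update_of_ne hji] using hrC j hj'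

/-- The same with membership in place of avoidance. -/
theorem exists_inside (k : ℕ) (S : Finset ι) (R : (ι → V) → Prop) (D : (ι → Finset V) → Prop)
    (hR : (S.card : ℝ) * (k / Fintype.card V) < pr R) (hD : (S.card : ℝ) * (1 / 2) ^ k < pr D) :
    ∃ r C, R r ∧ D C ∧ ∀ i ∈ S, r i ∈ C i := by
  let e : (ι → Finset V) ≃ (ι → Finset V) :=
    { toFun := fun C i => (C i)ᶜ
      invFun := fun C i => (C i)ᶜ
      left_inv := fun C => by simp
      right_inv := fun C => by simp }
  have h1 : pr (fun C => D (e C)) = pr D := pr_equiv e D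
  obtain ⟨r, C, hr, hC, hrC⟩ := exists_avoid k S R (fun C => D (e C)) hR (by rw [h1]; exact hD)
  refine ⟨r, e C, hr, hC, fun i hi => ?_⟩
  have := hrC i hi
  simpa [e] using this

end

end Pool.Agent.Lib.MP_f83138_lc.Mono
end

section

set_option autoImplicit false

/-!
# A dense set of sequences is heavy in most blocks
-/

namespace Pool.Agent.Lib.MP_f83138_lc.Mono

open Finset

section

variable {ι V : Type*} [Fintype ι] [DecidableEq ι] [Fintype V]

/-- The density of `A` given the coordinates of `x` in `T`. -/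
noncomputable def cond (A : (ι → V) → Prop) (T : Finset ι) (x : ι → V) : ℝ :=
  pr fun y => A (T.piecewise x y)

/-- Given the coordinates of `x` in `T`, the proportion of the values of the other coordinates such
that the density of `A` given the coordinates in `T'` is at least `ρ`. -/
noncomputable def hv (A : (ι → V) → Prop) (T T' : Finset ι) (ρ : ℝ) (x : ι → V) : ℝ :=
  pr fun z => ρ ≤ cond A T' (T.piecewise x z)

omit [Fintype ι] [Fintype V] in
theorem piecewise_congr' {T : Finset ι} {x y : ι → V} (h : ∀ i ∈ T, x i = y i) (z : ι → V) :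
    T.piecewise x z = T.piecewise y z := by
  funext i
  by_cases hi : i ∈ T
  · rw [Finset.piecewise_eq_of_mem _ _ _ hi, Finset.piecewise_eq_of_mem _ _ _ hi, h i hi]
  · rw [Finset.piecewise_eq_of_notMem _ _ _ hi, Finset.piecewise_eq_of_notMem _ _ _ hi]

theorem cond_congr (A : (ι → V) → Prop) {T : Finset ι} {x y : ι → V}
    (h : ∀ i ∈ T, x i = y i) : cond A T x = cond A T y := by
  unfold cond
  simp only [piecewise_congr' h]

theorem hv_congr (A : (ι → V) → Prop) {T T' : Finset ι} {ρ : ℝ} {x y : ι → V}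
    (h : ∀ i ∈ T, x i = y i) : hv A T T' ρ x = hv A T T' ρ y := by
  unfold hv
  simp only [piecewise_congr' h]

omit [Fintype ι] [Fintype V] in
theorem piecewise_tower {T T' : Finset ι} (h : T ⊆ T') (x z y : ι → V) :
    T'.piecewise (T.piecewise x z) y = T.piecewise x (T'.piecewise z y) := by
  funext i
  by_cases hi : i ∈ T
  · simp [Finset.piecewise, hi, h hi]
  · by_cases hi' : i ∈ T' <;> simp [Finset.piecewise, hi, hi']

theorem pr_tower [Nonempty V] {T T' : Finset ι} (h : T ⊆ T') (P : (ι → V) → Prop) (x : ι → V) :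
    pr (fun y => P (T.piecewise x y)) =
      avg fun z => pr fun y => P (T'.piecewise (T.piecewise x z) y) := by
  classical
  have h1 := avg_tower T' (fun w => if P (T.piecewise x w) then (1 : ℝ) else 0)
  unfold pr
  rw [← h1]
  refine avg_congr fun z => avg_congr fun y => ?_
  simp only [piecewise_tower h]

omit [Fintype ι] [Fintype V] in
theorem piecewise_eq_on {T : Finset ι} (x y : ι → V) : ∀ i ∈ T, T.piecewise x y i = x i :=
  fun _ hi => Finset.piecewise_eq_of_mem _ _ _ hi

theorem pr_light [Nonempty V] {S : ℕ → Finset ι} (hS : Monotone S) {q : ℕ}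
    {A : (ι → V) → Prop} (hA : ∀ x y, (∀ i ∈ S q, x i = y i) → (A x ↔ A y)) {ρ : ℝ}
    (hρ0 : 0 ≤ ρ) (hρ : ρ ≤ 1) (d : ℕ) :
    ∀ i, i + d = q → ∀ x, pr (fun y => A ((S i).piecewise x y) ∧ ∃ j, i ≤ j ∧ j ≤ q ∧
      cond A (S j) ((S i).piecewise x y) < ρ) ≤ ρ := by
  induction d with
  | zero =>
    intro i hi x
    rw [add_zero] at hi
    subst hi
    refine le_trans (le_of_eq ?_) hρ0
    rw [← pr_false (Ω := ι → V)]
    refine pr_congr fun y => iff_false_intro ?_
    rintro ⟨h1, j, h2, h3, h4⟩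
    have hj : j = i := le_antisymm h3 h2
    subst hj
    have h5 : cond A (S j) ((S j).piecewise x y) = 1 := by
      unfold cond
      rw [← pr_true (Ω := ι → V)]
      refine pr_congr fun z => iff_true_intro ?_
      refine (hA _ _ fun i hi => ?_).2 h1
      rw [piecewise_eq_on _ _ i hi]
    linarith
  | succ d ih =>
    intro i hi x
    by_cases hx : cond A (S i) x < ρ
    · refine le_trans (pr_mono fun y hy => hy.1) hx.le
    · have h1 : pr (fun y => A ((S i).piecewise x y) ∧ ∃ j, i ≤ j ∧ j ≤ q ∧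
          cond A (S j) ((S i).piecewise x y) < ρ) ≤
          pr (fun y => A ((S i).piecewise x y) ∧ ∃ j, i + 1 ≤ j ∧ j ≤ q ∧
          cond A (S j) ((S i).piecewise x y) < ρ) := by
        refine pr_mono fun y hy => ⟨hy.1, ?_⟩
        obtain ⟨j, h2, h3, h4⟩ := hy.2
        refine ⟨j, ?_, h3, h4⟩
        rcases Nat.lt_or_ge i j with h5 | h5
        · exact h5
        · have h6 : j = i := le_antisymm h5 h2
          subst h6
          rw [cond_congr A (piecewise_eq_on x y)] at h4
          exact absurd h4 hx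
      refine h1.trans ?_
      rw [pr_tower (hS (Nat.le_succ i)) (fun w => A w ∧ ∃ j, i + 1 ≤ j ∧ j ≤ q ∧
        cond A (S j) w < ρ) x]
      exact avg_le_of_le hρ0 fun z => ih (i + 1) (by omega) _

/-- The event that block `j` is heavy although heavy values are rare. -/
def Rare (A : (ι → V) → Prop) (S : ℕ → Finset ι) (ρ κ : ℝ) (j : ℕ) (w : ι → V) : Prop :=
  hv A (S j) (S (j + 1)) ρ w < κ ∧ ρ ≤ cond A (S (j + 1)) w

theorem pr_rare [Nonempty V] {S : ℕ → Finset ι} (hS : Monotone S) {q : ℕ}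
    {A : (ι → V) → Prop} {ρ κ : ℝ} (hκ0 : 0 ≤ κ) {Bad : Finset ℕ}
    (hBad : ∀ j ∈ Bad, j < q) (d : ℕ) :
    ∀ i, i + d = q → ∀ x, pr (fun y => ∀ j ∈ Bad, i ≤ j → Rare A S ρ κ j ((S i).piecewise x y)) ≤
      κ ^ (Bad.filter fun j => i ≤ j).card := by
  classical
  induction d with
  | zero =>
    intro i hi x
    have h1 : (Bad.filter fun j => i ≤ j) = ∅ := by
      refine Finset.filter_eq_empty_iff.2 fun j hj => ?_
      have := hBad j hj
      omega
    rw [h1, Finset.card_empty, pow_zero]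
    exact pr_le_one _
  | succ d ih =>
    intro i hi x
    -- the next step, for a single value of the coordinates of the block
    have hstep : ∀ w, pr (fun y => ∀ j ∈ Bad, i + 1 ≤ j →
        Rare A S ρ κ j ((S (i + 1)).piecewise w y)) ≤
        κ ^ (Bad.filter fun j => i + 1 ≤ j).card := ih (i + 1) (by omega)
    by_cases hiB : i ∈ Bad
    · have h1 : (Bad.filter fun j => i ≤ j).card = (Bad.filter fun j => i + 1 ≤ j).card + 1 := by
        have h2 : (Bad.filter fun j => i ≤ j) = insert i (Bad.filter fun j => i + 1 ≤ j) := by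
          ext j
          simp only [Finset.mem_filter, Finset.mem_insert]
          constructor
          · rintro ⟨h3, h4⟩
            rcases Nat.lt_or_ge i j with h5 | h5
            · exact Or.inr ⟨h3, h5⟩
            · exact Or.inl (le_antisymm h5 h4)
          · rintro (rfl | ⟨h3, h4⟩)
            · exact ⟨hiB, le_rfl⟩
            · exact ⟨h3, by omega⟩
        rw [h2, Finset.card_insert_of_notMem]
        simp
      rw [h1, pow_succ]
      by_cases hx : hv A (S i) (S (i + 1)) ρ x < κ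
      · rw [pr_tower (hS (Nat.le_succ i)) (fun w => ∀ j ∈ Bad, i ≤ j → Rare A S ρ κ j w) x]
        have h2 : ∀ z, (pr fun y => ∀ j ∈ Bad, i ≤ j →
            Rare A S ρ κ j ((S (i + 1)).piecewise ((S i).piecewise x z) y)) ≤
            (κ ^ (Bad.filter fun j => i + 1 ≤ j).card) *
              (if ρ ≤ cond A (S (i + 1)) ((S i).piecewise x z) then (1 : ℝ) else 0) := by
          intro z
          split_ifs with hz
          · rw [mul_one]
            refine le_trans (pr_mono fun y hy j hj hij => hy j hj (by omega)) (hstep _)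
          · rw [mul_zero]
            refine le_of_eq ?_
            rw [← pr_false (Ω := ι → V)]
            refine pr_congr fun y => iff_false_intro fun hy => ?_
            have h3 := (hy i hiB le_rfl).2
            rw [cond_congr A (piecewise_eq_on _ y)] at h3
            exact hz h3
        refine (avg_mono h2).trans ?_
        rw [avg_mul_left]
        exact mul_le_mul_of_nonneg_left hx.le (pow_nonneg hκ0 _)
      · refine le_trans (le_of_eq ?_) (mul_nonneg (pow_nonneg hκ0 _) hκ0)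
        rw [← pr_false (Ω := ι → V)]
        refine pr_congr fun y => iff_false_intro fun hy => ?_
        have h3 := (hy i hiB le_rfl).1
        rw [hv_congr A (piecewise_eq_on x y)] at h3
        exact hx h3
    · have h1 : (Bad.filter fun j => i ≤ j) = Bad.filter fun j => i + 1 ≤ j := by
        ext j
        simp only [Finset.mem_filter]
        constructor
        · rintro ⟨h3, h4⟩
          refine ⟨h3, ?_⟩
          rcases Nat.lt_or_ge i j with h5 | h5
          · exact h5
          · exact absurd (le_antisymm h5 h4 ▸ h3) hiB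
        · rintro ⟨h3, h4⟩
          exact ⟨h3, by omega⟩
      rw [h1, pr_tower (hS (Nat.le_succ i)) (fun w => ∀ j ∈ Bad, i ≤ j → Rare A S ρ κ j w) x]
      refine avg_le_of_le (pow_nonneg hκ0 _) fun z => ?_
      exact le_trans (pr_mono fun y hy j hj hij => hy j hj (by omega)) (hstep _)

/-- If many blocks are seldom heavy, then `A` has small density. -/
theorem pr_le_of_bad [Nonempty V] {S : ℕ → Finset ι} (hS : Monotone S) (hS0 : S 0 = ∅) {q : ℕ}
    {A : (ι → V) → Prop} (hA : ∀ x y, (∀ i ∈ S q, x i = y i) → (A x ↔ A y)) {ρ κ ν : ℝ}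
    (hρ0 : 0 ≤ ρ) (hρ : ρ ≤ 1) (hκ0 : 0 ≤ κ) {Bad : Finset ℕ} (hBad : ∀ j ∈ Bad, j < q)
    (hν : ∀ j ∈ Bad, pr (fun x => κ ≤ hv A (S j) (S (j + 1)) ρ x) ≤ ν) :
    pr A ≤ Bad.card * ν + ρ + κ ^ Bad.card := by
  classical
  have h0 : ∀ x y : ι → V, (S 0).piecewise x y = y := by
    intro x y
    rw [hS0, Finset.piecewise_empty]
  have h1 : pr (fun x => ∃ j ∈ Bad, κ ≤ hv A (S j) (S (j + 1)) ρ x) ≤ Bad.card * ν := by
    refine (pr_exists Bad _).trans ((Finset.sum_le_sum hν).trans (le_of_eq ?_))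
    rw [Finset.sum_const, nsmul_eq_mul]
  obtain ⟨v⟩ := ‹Nonempty V›
  have h2 := pr_light hS hA hρ0 hρ q 0 (Nat.zero_add q) (fun _ => v)
  have h3 := pr_rare hS (A := A) (ρ := ρ) hκ0 hBad q 0 (Nat.zero_add q) (fun _ => v)
  simp only [h0] at h2 h3
  have h4 : (Bad.filter fun j => 0 ≤ j) = Bad := Finset.filter_true_of_mem fun _ _ => Nat.zero_le _
  rw [h4] at h3
  refine le_trans ?_ (add_le_add (add_le_add h1 h2) h3)
  refine le_trans (pr_mono (q := fun x => ((∃ j ∈ Bad, κ ≤ hv A (S j) (S (j + 1)) ρ x) ∨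
    (A x ∧ ∃ j, 0 ≤ j ∧ j ≤ q ∧ cond A (S j) x < ρ)) ∨
    (∀ j ∈ Bad, 0 ≤ j → Rare A S ρ κ j x)) fun x hx => ?_)
    ((pr_or _ _).trans (add_le_add_left (pr_or _ _) _))
  by_cases h5 : ∃ j ∈ Bad, κ ≤ hv A (S j) (S (j + 1)) ρ x
  · exact Or.inl (Or.inl h5)
  · by_cases h6 : ∃ j, 0 ≤ j ∧ j ≤ q ∧ cond A (S j) x < ρ
    · exact Or.inl (Or.inr ⟨hx, h6⟩)
    · refine Or.inr fun j hj _ => ⟨?_, ?_⟩
      · push Not at h5
        exact h5 j hj
      · push Not at h6
        have := hBad j hj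
        exact h6 (j + 1) (Nat.zero_le _) (by omega)

end

end Pool.Agent.Lib.MP_f83138_lc.Mono
end

section

set_option autoImplicit false

/-!
# Selection of a block
-/

namespace Pool.Agent.Lib.MP_f83138_lc.Mono

open Finset

theorem pr_markov {Ω : Type*} [Fintype Ω] {f : Ω → ℝ} (hf : ∀ x, 0 ≤ f x) {c : ℝ} (hc : 0 < c) :
    pr (fun x => c ≤ f x) ≤ avg f / c := by
  rw [le_div_iff₀ hc]
  unfold pr
  rw [← avg_mul_right]
  refine avg_mono fun x => ?_
  split_ifs with h
  · rw [one_mul]; exact h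
  · rw [zero_mul]; exact hf x

theorem pr_ge_sub {Ω : Type*} [Fintype Ω] (p q : Ω → Prop) :
    pr p - pr (fun x => p x ∧ ¬ q x) ≤ pr fun x => q x := by
  have h1 : pr p ≤ pr (fun x => (p x ∧ ¬ q x) ∨ q x) := by
    refine pr_mono fun x hx => ?_
    by_cases hq : q x
    · exact Or.inr hq
    · exact Or.inl ⟨hx, hq⟩
  have h2 := pr_or (fun x => p x ∧ ¬ q x) q
  linarith

section

variable {ι V : Type*} [Fintype ι] [DecidableEq ι] [Fintype V] [DecidableEq V] [Nonempty V]

/-- Fewer than half of the blocks are seldom heavy. -/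
theorem bad_lt {W : Type*} [Fintype W] [Nonempty W] {S : ℕ → Finset ι} (hS : Monotone S)
    (hS0 : S 0 = ∅) {q : ℕ} {A : (ι → W) → Prop}
    (hA : ∀ x y, (∀ i ∈ S q, x i = y i) → (A x ↔ A y)) {μ κ : ℝ} (hμ0 : 0 < μ) (hμ : μ ≤ pr A)
    (hq : 0 < q) (hκ0 : 0 ≤ κ) (hκ : ∀ b, q ≤ 2 * b → κ ^ b ≤ μ / 4) :
    2 * ((Finset.range q).filter fun j =>
      pr (fun x => κ ≤ hv A (S j) (S (j + 1)) (μ / 4) x) ≤ μ / (4 * q)).card < q := by
  classical
  by_contra hcon
  push Not at hcon
  have hμ1 : μ ≤ 1 := hμ.trans (pr_le_one A)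
  have h1 := pr_le_of_bad hS hS0 hA (ρ := μ / 4) (κ := κ) (ν := μ / (4 * q)) (by linarith)
    (by linarith) hκ0
    (Bad := (Finset.range q).filter fun j =>
      pr (fun x => κ ≤ hv A (S j) (S (j + 1)) (μ / 4) x) ≤ μ / (4 * q))
    (fun j hj => Finset.mem_range.1 (Finset.mem_filter.1 hj).1)
    (fun j hj => (Finset.mem_filter.1 hj).2)
  have h2 := hκ _ hcon
  have h3 : (((Finset.range q).filter fun j =>
      pr (fun x => κ ≤ hv A (S j) (S (j + 1)) (μ / 4) x) ≤ μ / (4 * q)).card : ℝ) ≤ q := by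
    have := Finset.card_filter_le (Finset.range q) fun j =>
      pr (fun x => κ ≤ hv A (S j) (S (j + 1)) (μ / 4) x) ≤ μ / (4 * q)
    rw [Finset.card_range] at this
    exact_mod_cast this
  have hq' : (0 : ℝ) < q := by exact_mod_cast hq
  have h4 : (((Finset.range q).filter fun j =>
      pr (fun x => κ ≤ hv A (S j) (S (j + 1)) (μ / 4) x) ≤ μ / (4 * q)).card : ℝ) *
      (μ / (4 * q)) ≤ μ / 4 := by
    calc _ ≤ (q : ℝ) * (μ / (4 * q)) := mul_le_mul_of_nonneg_right h3 (by positivity)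
      _ = μ / 4 := by field_simp
  linarith

theorem select {A : (ι → V) → Prop} {B : (ι → Finset V) → Prop} {q k : ℕ} {μ κ : ℝ}
    {Pre Suf : ℕ → Finset ι} (hPre : Monotone Pre) (hPre0 : Pre 0 = ∅) (hSuf : Antitone Suf)
    (hSufq : Suf q = ∅) (hA : ∀ x y, (∀ i ∈ Pre q, x i = y i) → (A x ↔ A y))
    (hB : ∀ x y, (∀ i ∈ Suf 0, x i = y i) → (B x ↔ B y)) (hμ0 : 0 < μ) (hμA : μ ≤ pr A)
    (hμB : μ ≤ pr B) (hq : 0 < q) (hκ0 : 0 < κ) (hκ1 : κ ≤ 1)
    (hκ : ∀ b, q ≤ 2 * b → κ ^ b ≤ μ / 4)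
    (hk1 : (Fintype.card ι : ℝ) * (k / Fintype.card V) < μ * κ / (16 * q))
    (hk2 : (Fintype.card ι : ℝ) * (1 / 2) ^ k < μ * κ / (16 * q)) :
    ∃ j < q, ∃ (u : ι → V) (C : ι → Finset V),
      κ / 2 ≤ pr (fun z => ∃ r, (∀ i ∈ Suf (j + 1), r i ∉ C i) ∧
        A ((Pre (j + 1)).piecewise ((Pre j).piecewise u z) r)) ∧
      κ / 2 ≤ pr (fun Z => ∃ D, (∀ i ∈ Pre j, u i ∈ D i) ∧
        B ((Suf j).piecewise ((Suf (j + 1)).piecewise C Z) D)) := by
  classical
  have hq' : (0 : ℝ) < q := by exact_mod_cast hq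
  have hq1 : (1 : ℝ) ≤ q := by exact_mod_cast hq
  have hμ1 : μ ≤ 1 := hμA.trans (pr_le_one A)
  have hbA := bad_lt hPre hPre0 hA hμ0 hμA hq hκ0.le hκ
  have hS' : Monotone fun t => Suf (q - t) := fun s t hst => hSuf (by omega)
  have hbB := bad_lt (S := fun t => Suf (q - t)) hS' (by simpa using hSufq) (q := q) (A := B)
    (by simpa using hB) hμ0 hμB hq hκ0.le hκ
  obtain ⟨j, hj, hjA, hjB⟩ : ∃ j < q,
      μ / (4 * q) < pr (fun x => κ ≤ hv A (Pre j) (Pre (j + 1)) (μ / 4) x) ∧
      μ / (4 * q) < pr (fun x => κ ≤ hv B (Suf (j + 1)) (Suf j) (μ / 4) x) := by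
    by_contra hcon
    push Not at hcon
    obtain ⟨FA, hFA⟩ : ∃ FA, FA = (Finset.range q).filter fun j =>
      pr (fun x => κ ≤ hv A (Pre j) (Pre (j + 1)) (μ / 4) x) ≤ μ / (4 * q) := ⟨_, rfl⟩
    obtain ⟨FB, hFB⟩ : ∃ FB, FB = (Finset.range q).filter fun j =>
      pr (fun x => κ ≤ hv B (Suf (q - j)) (Suf (q - (j + 1))) (μ / 4) x) ≤ μ / (4 * q) := ⟨_, rfl⟩
    rw [← hFA] at hbA
    rw [← hFB] at hbB
    have h1 : Finset.range q ⊆ FA ∪ FB.image fun t => q - 1 - t := by
      intro j hj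
      rw [Finset.mem_range] at hj
      rw [Finset.mem_union, Finset.mem_image]
      by_cases h2 : pr (fun x => κ ≤ hv A (Pre j) (Pre (j + 1)) (μ / 4) x) ≤ μ / (4 * q)
      · left
        rw [hFA, Finset.mem_filter, Finset.mem_range]
        exact ⟨hj, h2⟩
      · right
        have h3 := hcon j hj (not_le.1 h2)
        refine ⟨q - 1 - j, ?_, by omega⟩
        rw [hFB, Finset.mem_filter, Finset.mem_range]
        refine ⟨by omega, ?_⟩
        have e1 : q - (q - 1 - j) = j + 1 := by omega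
        have e2 : q - (q - 1 - j + 1) = j := by omega
        rw [e1, e2]
        exact h3
    have h2 := (Finset.card_le_card h1).trans (Finset.card_union_le _ _)
    have h3 : (FB.image fun t => q - 1 - t).card ≤ FB.card := Finset.card_image_le
    rw [Finset.card_range] at h2
    omega
  -- the two bounds for failures
  obtain ⟨ρ, hρ⟩ : ∃ ρ, ρ = μ / 4 := ⟨_, rfl⟩
  rw [← hρ] at hjA hjB
  have hρη : μ * κ / (16 * q) < ρ := by
    rw [hρ, div_lt_div_iff₀ (by positivity) (by norm_num)]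
    nlinarith [mul_pos hμ0 hq', mul_le_mul_of_nonneg_left hκ1 hμ0.le]
  have hcard : ∀ S : Finset ι, (S.card : ℝ) ≤ Fintype.card ι := fun S => by
    exact_mod_cast Finset.card_le_univ S
  obtain ⟨η, hη⟩ : ∃ η, η = μ * κ / (16 * q) := ⟨_, rfl⟩
  rw [← hη] at hρη hk1 hk2
  have hη0 : 0 < η := by rw [hη]; positivity
  obtain ⟨FA, hFA⟩ : ∃ FA : (ι → V) → (ι → Finset V) → (ι → V) → Prop, FA = fun u C z =>
    (∃ r, (∀ i ∈ Suf (j + 1), r i ∉ C i) ∧
        A ((Pre (j + 1)).piecewise ((Pre j).piecewise u z) r)) := ⟨_, rfl⟩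
  obtain ⟨FB, hFB⟩ : ∃ FB : (ι → V) → (ι → Finset V) → (ι → Finset V) → Prop, FB = fun u C Z =>
    (∃ D, (∀ i ∈ Pre j, u i ∈ D i) ∧
        B ((Suf j).piecewise ((Suf (j + 1)).piecewise C Z) D)) := ⟨_, rfl⟩
  have hA1 : ∀ u z, pr (fun C => (ρ ≤ cond A (Pre (j + 1)) ((Pre j).piecewise u z)) ∧
      ¬ FA u C z) ≤ η := by
    intro u z
    by_contra hlt
    push Not at hlt
    obtain ⟨C₀, hC₀⟩ := exists_of_pr_pos (hη0.trans hlt)
    obtain ⟨r, C, hr, hC, hrC⟩ := exists_avoid k (Suf (j + 1))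
      (fun r => A ((Pre (j + 1)).piecewise ((Pre j).piecewise u z) r))
      (fun C => (ρ ≤ cond A (Pre (j + 1)) ((Pre j).piecewise u z)) ∧ ¬ FA u C z)
      (lt_of_lt_of_le (lt_of_le_of_lt (mul_le_mul_of_nonneg_right (hcard _) (by positivity))
        (hk1.trans hρη)) hC₀.1)
      (lt_of_le_of_lt (mul_le_mul_of_nonneg_right (hcard _) (by positivity)) (hk2.trans hlt))
    apply hC.2
    rw [hFA]
    exact ⟨r, hrC, hr⟩
  have hB1 : ∀ C Z, pr (fun u => (ρ ≤ cond B (Suf j) ((Suf (j + 1)).piecewise C Z)) ∧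
      ¬ FB u C Z) ≤ η := by
    intro C Z
    by_contra hlt
    push Not at hlt
    obtain ⟨u₀, hu₀⟩ := exists_of_pr_pos (hη0.trans hlt)
    obtain ⟨u, D, hu, hD, huD⟩ := exists_inside k (Pre j)
      (fun u => (ρ ≤ cond B (Suf j) ((Suf (j + 1)).piecewise C Z)) ∧ ¬ FB u C Z)
      (fun D => B ((Suf j).piecewise ((Suf (j + 1)).piecewise C Z) D))
      (lt_of_le_of_lt (mul_le_mul_of_nonneg_right (hcard _) (by positivity)) (hk1.trans hlt))
      (lt_of_lt_of_le (lt_of_le_of_lt (mul_le_mul_of_nonneg_right (hcard _) (by positivity))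
        (hk2.trans hρη)) hu₀.1)
    apply hu.2
    rw [hFB]
    exact ⟨D, huD, hD⟩
  obtain ⟨fA, hfA⟩ : ∃ fA : (ι → V) → (ι → Finset V) → ℝ, fA = fun u C =>
    pr (fun z => (ρ ≤ cond A (Pre (j + 1)) ((Pre j).piecewise u z)) ∧ ¬ FA u C z) := ⟨_, rfl⟩
  obtain ⟨fB, hfB⟩ : ∃ fB : (ι → V) → (ι → Finset V) → ℝ, fB = fun u C =>
    pr (fun Z => (ρ ≤ cond B (Suf j) ((Suf (j + 1)).piecewise C Z)) ∧ ¬ FB u C Z) := ⟨_, rfl⟩
  have hA2 : ∀ u, avg (fun C => fA u C) ≤ η := by
    intro u
    rw [hfA]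
    simp only
    unfold pr
    rw [avg_comm]
    exact avg_le_of_le hη0.le fun z => hA1 u z
  have hB2 : ∀ C, avg (fun u => fB u C) ≤ η := by
    intro C
    rw [hfB]
    simp only
    unfold pr
    rw [avg_comm]
    exact avg_le_of_le hη0.le fun Z => hB1 C Z
  have hA3 : ∀ u, pr (fun C => κ / 2 ≤ fA u C) ≤ η / (κ / 2) := fun u =>
    (pr_markov (fun C => by rw [hfA]; exact pr_nonneg _) (by positivity)).trans
      (div_le_div_of_nonneg_right (hA2 u) (by positivity))
  have hB3 : ∀ C, pr (fun u => κ / 2 ≤ fB u C) ≤ η / (κ / 2) := fun C =>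
    (pr_markov (fun u => by rw [hfB]; exact pr_nonneg _) (by positivity)).trans
      (div_le_div_of_nonneg_right (hB2 C) (by positivity))
  have hη2 : η / (κ / 2) = μ / (8 * q) := by
    rw [hη]
    field_simp
    norm_num
  rw [hη2] at hA3 hB3
  -- the choice of `u` and `C`
  obtain ⟨u, C, hu, hC, hfAu, hfBu⟩ : ∃ u C, κ ≤ hv A (Pre j) (Pre (j + 1)) ρ u ∧
      κ ≤ hv B (Suf (j + 1)) (Suf j) ρ C ∧ fA u C < κ / 2 ∧ fB u C < κ / 2 := by
    by_contra hcon
    push Not at hcon
    obtain ⟨a, ha⟩ : ∃ a, a = pr (fun x => κ ≤ hv A (Pre j) (Pre (j + 1)) ρ x) := ⟨_, rfl⟩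
    obtain ⟨b, hb⟩ : ∃ b, b = pr (fun x => κ ≤ hv B (Suf (j + 1)) (Suf j) ρ x) := ⟨_, rfl⟩
    rw [← ha] at hjA
    rw [← hb] at hjB
    have h1 : a * b ≤ a * (μ / (8 * q)) + b * (μ / (8 * q)) := by
      calc a * b = avg fun u => avg fun C =>
            (if κ ≤ hv A (Pre j) (Pre (j + 1)) ρ u then (1 : ℝ) else 0) *
              (if κ ≤ hv B (Suf (j + 1)) (Suf j) ρ C then (1 : ℝ) else 0) := by
            rw [ha, hb]
            unfold pr
            rw [← avg_mul_right]
            exact avg_congr fun u => (avg_mul_left _ _).symm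
        _ ≤ avg fun u => avg fun C =>
            ((if κ ≤ hv A (Pre j) (Pre (j + 1)) ρ u then (1 : ℝ) else 0) *
              (if κ / 2 ≤ fA u C then (1 : ℝ) else 0) +
            (if κ ≤ hv B (Suf (j + 1)) (Suf j) ρ C then (1 : ℝ) else 0) *
              (if κ / 2 ≤ fB u C then (1 : ℝ) else 0)) := by
            refine avg_mono fun u => avg_mono fun C => ?_
            by_cases h1 : κ ≤ hv A (Pre j) (Pre (j + 1)) ρ u
            · by_cases h2 : κ ≤ hv B (Suf (j + 1)) (Suf j) ρ C
              · by_cases h3 : κ / 2 ≤ fA u C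
                · rw [if_pos h1, if_pos h2, if_pos h3]
                  split_ifs <;> norm_num
                · rw [if_pos h1, if_pos h2, if_neg h3, if_pos (hcon u C h1 h2 (not_le.1 h3))]
                  norm_num
              · rw [if_pos h1, if_neg h2]
                split_ifs <;> norm_num
            · rw [if_neg h1]
              split_ifs <;> norm_num
        _ = (avg fun u => (if κ ≤ hv A (Pre j) (Pre (j + 1)) ρ u then (1 : ℝ) else 0) *
              pr fun C => κ / 2 ≤ fA u C) +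
            avg fun C => (if κ ≤ hv B (Suf (j + 1)) (Suf j) ρ C then (1 : ℝ) else 0) *
              pr fun u => κ / 2 ≤ fB u C := by
            have e1 : ∀ u, (avg fun C =>
              ((if κ ≤ hv A (Pre j) (Pre (j + 1)) ρ u then (1 : ℝ) else 0) *
                (if κ / 2 ≤ fA u C then (1 : ℝ) else 0) +
              (if κ ≤ hv B (Suf (j + 1)) (Suf j) ρ C then (1 : ℝ) else 0) *
                (if κ / 2 ≤ fB u C then (1 : ℝ) else 0))) =
              ((if κ ≤ hv A (Pre j) (Pre (j + 1)) ρ u then (1 : ℝ) else 0) *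
                pr fun C => κ / 2 ≤ fA u C) + avg fun C =>
              (if κ ≤ hv B (Suf (j + 1)) (Suf j) ρ C then (1 : ℝ) else 0) *
                (if κ / 2 ≤ fB u C then (1 : ℝ) else 0) := by
              intro u
              rw [avg_add, avg_mul_left]
              rfl
            simp only [e1]
            rw [avg_add]
            congr 1
            rw [avg_comm]
            refine avg_congr fun C => ?_
            rw [avg_mul_left]
            rfl
        _ ≤ a * (μ / (8 * q)) + b * (μ / (8 * q)) := by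
            refine add_le_add ?_ ?_
            · rw [ha]
              unfold pr
              rw [← avg_mul_right]
              refine avg_mono fun u => mul_le_mul_of_nonneg_left (hA3 u) ?_
              split_ifs <;> norm_num
            · rw [hb]
              unfold pr
              rw [← avg_mul_right]
              refine avg_mono fun C => mul_le_mul_of_nonneg_left (hB3 C) ?_
              split_ifs <;> norm_num
    have h2 : μ / (4 * q) = 2 * (μ / (8 * q)) := by
      field_simp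
      norm_num
    rw [h2] at hjA hjB
    have h3 : 0 < μ / (8 * q) := by positivity
    nlinarith [mul_pos (sub_pos.2 hjA) (sub_pos.2 hjB), mul_pos h3 (sub_pos.2 hjA),
      mul_pos h3 (sub_pos.2 hjB)]
  refine ⟨j, hj, u, C, ?_, ?_⟩
  · have h1 := pr_ge_sub (fun z => ρ ≤ cond A (Pre (j + 1)) ((Pre j).piecewise u z))
      (fun z => FA u C z)
    rw [hfA] at hfAu
    unfold hv at hu
    have h2 : κ / 2 ≤ pr (fun z => FA u C z) := by linarith
    rw [hFA] at h2
    exact h2
  · have h1 := pr_ge_sub (fun Z => ρ ≤ cond B (Suf j) ((Suf (j + 1)).piecewise C Z))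
      (fun Z => FB u C Z)
    rw [hfB] at hfBu
    unfold hv at hC
    have h2 : κ / 2 ≤ pr (fun Z => FB u C Z) := by linarith
    rw [hFB] at h2
    exact h2

end

end Pool.Agent.Lib.MP_f83138_lc.Mono
end

section

set_option autoImplicit false

/-!
# Layered paths and cuts
-/

namespace Pool.Agent.Lib.MP_f83138_lc.Mono

open Finset

section

variable {L : ℕ} {V U : Type*} [Fintype V] [DecidableEq V] [Nonempty V]

/-- The `j`-th vertex of the path given by `a`. -/
def pt (s t : U) (φ : Fin L × V → U) (a : Fin L → V) (j : ℕ) : U :=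
  if j = 0 then s else if h : j - 1 < L then φ (⟨j - 1, h⟩, a ⟨j - 1, h⟩) else t

/-- The edges of the path given by `a`. -/
def pathG (s t : U) (φ : Fin L × V → U) (a : Fin L → V) : Set (U × U) :=
  {e | ∃ j ≤ L, e = (pt s t φ a j, pt s t φ a (j + 1))}

/-- The source side of a cut. -/
def side (s : U) (φ : Fin L × V → U) (b : Fin L → Finset V) : Set U :=
  {x | x = s ∨ ∃ i v, x = φ (i, v) ∧ v ∈ b i}

/-- All edges which do not leave the source side. -/
def cutG (s : U) (φ : Fin L × V → U) (b : Fin L → Finset V) : Set (U × U) :=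
  {e | e.1 ∈ side s φ b → e.2 ∈ side s φ b}

/-- The positions of an interval. -/
def itv (L p e : ℕ) : Finset (Fin L) := Finset.univ.filter fun i => p ≤ (i : ℕ) ∧ (i : ℕ) < p + e

theorem mem_itv {p e : ℕ} {i : Fin L} : i ∈ itv L p e ↔ p ≤ (i : ℕ) ∧ (i : ℕ) < p + e := by
  simp [itv]

/-- The size of a family of sequences with respect to an interval. -/
noncomputable def dn {W : Type*} [Fintype W] (I : Finset (Fin L)) (A : Set (Fin L → W)) : ℝ :=
  pr fun x : Fin L → W => ∃ a ∈ A, ∀ i ∈ I, a i = x i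

theorem isSize_dn {W : Type*} [Fintype W] (I : Finset (Fin L)) : IsSize (dn (W := W) I) where
  empty := by
    unfold dn
    rw [← pr_false (Ω := Fin L → W)]
    exact pr_congr fun x => by simp
  mono A B h := pr_mono fun x ⟨a, ha, hx⟩ => ⟨a, h ha, hx⟩
  union A B := by
    refine le_trans (pr_mono fun x hx => ?_) (pr_or _ _)
    obtain ⟨a, ha | ha, hx⟩ := hx
    · exact Or.inl ⟨a, ha, hx⟩
    · exact Or.inr ⟨a, ha, hx⟩

/-- Outside an interval the paths and the cuts do not interfere. -/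
def Adm (p e : ℕ) (A : Set (Fin L → V)) (B : Set (Fin L → Finset V)) : Prop :=
  ∃ (u : Fin L → V) (C : Fin L → Finset V),
    (∀ a ∈ A, ∀ i : Fin L, (i : ℕ) < p → a i = u i) ∧
    (∀ b ∈ B, ∀ i : Fin L, (i : ℕ) < p → u i ∈ b i) ∧
    (∀ b ∈ B, ∀ i : Fin L, p + e ≤ (i : ℕ) → b i = C i) ∧
    ∀ a ∈ A, ∀ i : Fin L, p + e ≤ (i : ℕ) → a i ∉ C i

omit [Fintype V] [DecidableEq V] [Nonempty V] in
theorem Adm.mono {p e : ℕ} {A A' : Set (Fin L → V)} {B B' : Set (Fin L → Finset V)}
    (h : Adm p e A B) (hA : A' ⊆ A) (hB : B' ⊆ B) : Adm p e A' B' := by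
  obtain ⟨u, C, h1, h2, h3, h4⟩ := h
  exact ⟨u, C, fun a ha => h1 a (hA ha), fun b hb => h2 b (hB hb), fun b hb => h3 b (hB hb),
    fun a ha => h4 a (hA ha)⟩

theorem pr_coord {ι : Type*} [Fintype ι] [DecidableEq ι] (i : ι) (T : Finset V) :
    pr (fun x : ι → V => x i ∈ T) = T.card / Fintype.card V := by
  have h1 := avg_update i (fun x : ι → V => if x i ∈ T then (1 : ℝ) else 0)
  have h2 : pr (fun x : ι → V => x i ∈ T) = avg fun x : ι → V => if x i ∈ T then (1 : ℝ) else 0 := by
    unfold pr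
    exact avg_congr fun x => by congr
  rw [h2, ← h1]
  simp only [Function.update_self]
  have h3 : ∀ v : V, (avg fun _ : ι → V => if v ∈ T then (1 : ℝ) else 0) =
      if v ∈ T then (1 : ℝ) else 0 := fun v => avg_const _
  simp only [h3]
  unfold avg
  rw [Finset.sum_boole]
  congr 2
  simp

open Classical in
omit [DecidableEq V] [Nonempty V] in
theorem card_touch {X : Type*} (R : Finset X) {g : V → U} (hg : Function.Injective g)
    (f : X → U) : (Finset.univ.filter fun z => ∃ e ∈ R, f e = g z).card ≤ R.card := by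
  rw [← Finset.card_image_of_injective _ hg]
  refine le_trans (Finset.card_le_card (t := R.image f) ?_) Finset.card_image_le
  intro x hx
  obtain ⟨z, hz, rfl⟩ := Finset.mem_image.1 hx
  obtain ⟨e, he, hez⟩ := (Finset.mem_filter.1 hz).2
  exact Finset.mem_image.2 ⟨e, he, hez⟩

/-- The beginning of the induction: one step. -/
theorem base_case {w r : ℕ} {α : Type*} [LinearOrder α] {s t : U} {φ : Fin L × V → U}
    (hφ : Function.Injective φ) (hs : ∀ z, φ z ≠ s) {p : ℕ} (hp : p < L) {μ : ℝ}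
    (hμ : 2 * (r : ℝ) / Fintype.card V < μ) {A : Set (Fin L → V)} {B : Set (Fin L → Finset V)}
    (hadm : Adm p 1 A B) (hA : μ ≤ dn (itv L p 1) A) (hB : μ ≤ dn (itv L p 1) B)
    (l : List (MonoStep (U × U) w r α)) (hl : l.length ≤ 1) (σ : Fin w → α) (o : Fin w) (θ : α) :
    ¬ Sep (pathG s t φ) (cutG s φ) l σ o θ A B := by
  classical
  rintro ⟨h1, h2⟩
  have hμ0 : 0 < μ := lt_of_le_of_lt (by positivity) hμ
  have hBne : B.Nonempty := by
    by_contra h0
    rw [Set.not_nonempty_iff_eq_empty.1 h0, (isSize_dn _).empty] at hB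
    linarith
  have hAne : A.Nonempty := by
    by_contra h0
    rw [Set.not_nonempty_iff_eq_empty.1 h0, (isSize_dn _).empty] at hA
    linarith
  obtain ⟨b, hb⟩ := hBne
  rcases l with _ | ⟨st, l'⟩
  · obtain ⟨a, ha⟩ := hAne
    exact absurd (h1 a ha) (not_le.2 (h2 b hb))
  have hl' : l' = [] := by
    rw [List.length_cons] at hl
    exact List.length_eq_zero_iff.1 (by omega)
  subst hl'
  obtain ⟨R, hR1, hR2⟩ := st.reads σ
  obtain ⟨i₀, hi₀⟩ : ∃ i₀ : Fin L, (i₀ : ℕ) = p := ⟨⟨p, hp⟩, rfl⟩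
  have hinj : Function.Injective fun z : V => φ (i₀, z) := fun z z' h => by
    have := hφ h
    simpa using this
  obtain ⟨T, hT⟩ : ∃ T : Finset V, T = (Finset.univ.filter fun z => ∃ e ∈ R, e.1 = φ (i₀, z)) ∪
    Finset.univ.filter fun z => ∃ e ∈ R, e.2 = φ (i₀, z) := ⟨_, rfl⟩
  have hTc : T.card ≤ 2 * r := by
    have h3 := card_touch R hinj (fun e => e.1)
    have h4 := card_touch R hinj (fun e => e.2)
    rw [hT]
    refine (Finset.card_union_le _ _).trans ?_
    omega
  -- a path which does not use any edge of `R` at the position `p`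
  obtain ⟨a, ha, haT⟩ : ∃ a ∈ A, a i₀ ∉ T := by
    by_contra hcon
    push Not at hcon
    have h3 : dn (itv L p 1) A ≤ pr fun x : Fin L → V => x i₀ ∈ T := by
      refine pr_mono fun x ⟨a, ha, hx⟩ => ?_
      rw [← hx i₀ (mem_itv.2 (by omega))]
      exact hcon a ha
    rw [pr_coord] at h3
    have h4 : (T.card : ℝ) / Fintype.card V ≤ 2 * (r : ℝ) / Fintype.card V := by
      refine div_le_div_of_nonneg_right ?_ (Nat.cast_nonneg _)
      exact_mod_cast hTc
    linarith
  have hsub : pathG s t φ a ∩ ↑R ⊆ cutG s φ b := by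
    rintro e ⟨⟨j, hj, he⟩, heR⟩
    obtain ⟨u, C, hu1, hu2, hC1, hC2⟩ := hadm
    show e.1 ∈ side s φ b → e.2 ∈ side s φ b
    rw [hT, Finset.mem_union, Finset.mem_filter, Finset.mem_filter] at haT
    push Not at haT
    have hT1 := haT.1 (Finset.mem_univ _) e heR
    have hT2 := haT.2 (Finset.mem_univ _) e heR
    rcases lt_trichotomy j p with h3 | h3 | h3
    · intro _
      rw [he]
      right
      refine ⟨⟨j, by omega⟩, a ⟨j, by omega⟩, ?_, ?_⟩
      · simp only [pt, Nat.add_eq_zero_iff, one_ne_zero, and_false, if_false,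
          Nat.add_sub_cancel]
        rw [dif_pos (by omega)]
      · rw [hu1 a ha ⟨j, by omega⟩ h3]
        exact hu2 b hb _ h3
    · exfalso
      apply hT2
      rw [he]
      simp only [pt, Nat.add_eq_zero_iff, one_ne_zero, and_false, if_false,
        Nat.add_sub_cancel]
      rw [dif_pos (by omega)]
      have h4 : (⟨j, by omega⟩ : Fin L) = i₀ := Fin.ext (by rw [hi₀]; exact h3)
      rw [h4]
    · rcases Nat.lt_or_ge (p + 1) j with h4 | h4
      · intro h5
        exfalso
        rw [he] at h5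
        have h6 : pt s t φ a j = φ (⟨j - 1, by omega⟩, a ⟨j - 1, by omega⟩) := by
          unfold pt
          rw [if_neg (by omega), dif_pos (by omega)]
        rcases h5 with h5 | ⟨i, v, h5, hv⟩
        · exact hs _ (h6.symm.trans h5)
        · have h7 := hφ (h6.symm.trans h5)
          rw [Prod.mk.injEq] at h7
          obtain ⟨rfl, rfl⟩ := h7
          rw [hC1 b hb _ (by simp only; omega)] at hv
          exact hC2 a ha _ (by simp only; omega) hv
      · exfalso
        apply hT1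
        have h5 : j = p + 1 := by omega
        subst h5
        rw [he]
        simp only [pt, Nat.add_eq_zero_iff, one_ne_zero, and_false, if_false,
          Nat.add_sub_cancel]
        rw [dif_pos (by omega)]
        have h4 : (⟨p, by omega⟩ : Fin L) = i₀ := Fin.ext hi₀.symm
        rw [h4]
  have h3 : st.upd σ (pathG s t φ a) ≤ st.upd σ (cutG s φ b) := by
    rw [hR2 (pathG s t φ a)]
    exact st.mono _ _ le_rfl _ _ hsub
  have h4 := h1 a ha
  have h5 := h2 b hb
  simp only [run, List.foldl_cons, List.foldl_nil] at h4 h5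
  exact absurd (h4.trans (h3 o)) (not_le.2 h5)

end

end Pool.Agent.Lib.MP_f83138_lc.Mono
end

section

set_option autoImplicit false

/-!
# The induction on the length of the interval
-/

namespace Pool.Agent.Lib.MP_f83138_lc.Mono

open Finset

section

variable {L : ℕ} {V U : Type*} [Fintype V] [DecidableEq V] [Nonempty V]

/-- Short programs do not separate dense families of paths and cuts on intervals of length `e`. -/
def NoSep (s t : U) (φ : Fin L × V → U) (w r : ℕ) (α : Type*) [LinearOrder α] (e N : ℕ)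
    (μ : ℝ) : Prop :=
  ∀ p, p + e ≤ L → ∀ (A : Set (Fin L → V)) (B : Set (Fin L → Finset V)), Adm p e A B →
    μ ≤ dn (itv L p e) A → μ ≤ dn (itv L p e) B → ∀ l : List (MonoStep (U × U) w r α),
    l.length ≤ N → ∀ σ o θ, ¬ Sep (pathG s t φ) (cutG s φ) l σ o θ A B

variable {s t : U} {φ : Fin L × V → U} {w r : ℕ} {α : Type*} [LinearOrder α]

omit [Nonempty V] [DecidableEq V] in
theorem NoSep.time {e N K : ℕ} {μ μ' : ℝ} (h : NoSep s t φ w r α e N μ) (hμ : 0 < μ)
    (hK : K * w * μ < μ') : NoSep s t φ w r α e (K * N) μ' := by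
  intro p hp A B hadm hA hB l hl σ o θ
  exact time_lemma' (isSize_dn (itv L p e)) (isSize_dn (itv L p e)) hμ
    (fun A' hA' B' hB' h1 h2 l hl σ o θ => h p hp A' B' (hadm.mono hA' hB') h1 h2 l hl σ o θ)
    hK hA hB l hl σ o θ

theorem NoSep.space {e N q k : ℕ} {μ κ : ℝ} (h : NoSep s t φ w r α e N (κ / 2)) (hμ : 0 < μ)
    (hq : 0 < q) (hκ0 : 0 < κ) (hκ1 : κ ≤ 1) (hκ : ∀ b, q ≤ 2 * b → κ ^ b ≤ μ / 4)
    (hk1 : (L : ℝ) * (k / Fintype.card V) < μ * κ / (16 * q))
    (hk2 : (L : ℝ) * (1 / 2) ^ k < μ * κ / (16 * q)) :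
    NoSep s t φ w r α (q * e) N μ := by
  intro p hp A B hadm hA hB l hl σ o θ hsep
  obtain ⟨Pre, hPre⟩ : ∃ Pre : ℕ → Finset (Fin L), Pre = fun j => itv L p (j * e) := ⟨_, rfl⟩
  obtain ⟨Suf, hSuf⟩ : ∃ Suf : ℕ → Finset (Fin L), Suf = fun j =>
    Finset.univ.filter fun i : Fin L => p + j * e ≤ (i : ℕ) ∧ (i : ℕ) < p + q * e := ⟨_, rfl⟩
  have hmS : ∀ {j} {i : Fin L}, i ∈ Suf j ↔ p + j * e ≤ (i : ℕ) ∧ (i : ℕ) < p + q * e := by
    intro j i
    rw [hSuf]
    simp
  have hmP : ∀ {j} {i : Fin L}, i ∈ Pre j ↔ p ≤ (i : ℕ) ∧ (i : ℕ) < p + j * e := by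
    intro j i
    rw [hPre]
    exact mem_itv
  have hPm : Monotone Pre := by
    intro i j hij x hx
    rw [hmP] at hx ⊢
    have := Nat.mul_le_mul_right e hij
    omega
  have hSm : Antitone Suf := by
    intro i j hij x hx
    rw [hmS] at hx ⊢
    have := Nat.mul_le_mul_right e hij
    omega
  have hP0 : Pre 0 = ∅ := by
    ext i
    rw [hmP]
    simp
  have hSq : Suf q = ∅ := by
    ext i
    rw [hmS]
    simp
  have hcard : (Fintype.card (Fin L) : ℝ) = L := by rw [Fintype.card_fin]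
  obtain ⟨j, hj, u, C, h1, h2⟩ := select
    (A := fun x : Fin L → V => ∃ a ∈ A, ∀ i ∈ itv L p (q * e), a i = x i)
    (B := fun x : Fin L → Finset V => ∃ b ∈ B, ∀ i ∈ itv L p (q * e), b i = x i)
    (q := q) (k := k) (μ := μ) (κ := κ) hPm hP0 hSm hSq
    (by
      intro x y hxy
      constructor
      · rintro ⟨a, ha, hx⟩
        refine ⟨a, ha, fun i hi => ?_⟩
        rw [hx i hi]
        exact hxy i (by rw [hmP]; exact mem_itv.1 hi)
      · rintro ⟨a, ha, hx⟩
        refine ⟨a, ha, fun i hi => ?_⟩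
        rw [hx i hi]
        exact (hxy i (by rw [hmP]; exact mem_itv.1 hi)).symm)
    (by
      intro x y hxy
      constructor
      · rintro ⟨a, ha, hx⟩
        refine ⟨a, ha, fun i hi => ?_⟩
        rw [hx i hi]
        refine hxy i ?_
        have := mem_itv.1 hi
        rw [hmS]
        omega
      · rintro ⟨a, ha, hx⟩
        refine ⟨a, ha, fun i hi => ?_⟩
        rw [hx i hi]
        refine (hxy i ?_).symm
        have := mem_itv.1 hi
        rw [hmS]
        omega)
    hμ hA hB hq hκ0 hκ1 hκ (by rw [hcard]; exact hk1) (by rw [hcard]; exact hk2)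
  obtain ⟨u₀, C₀, hu1, hu2, hC1, hC2⟩ := hadm
  have hje : (j + 1) * e ≤ q * e := Nat.mul_le_mul_right e hj
  have hje' : (j + 1) * e = j * e + e := Nat.succ_mul j e
  obtain ⟨A', hA'⟩ : ∃ A' : Set (Fin L → V), A' = {a | a ∈ A ∧ (∀ i ∈ Pre j, a i = u i) ∧
    ∀ i ∈ Suf (j + 1), a i ∉ C i} := ⟨_, rfl⟩
  obtain ⟨B', hB'⟩ : ∃ B' : Set (Fin L → Finset V), B' = {b | b ∈ B ∧ (∀ i ∈ Pre j, u i ∈ b i) ∧
    ∀ i ∈ Suf (j + 1), b i = C i} := ⟨_, rfl⟩
  refine h (p + j * e) (by omega) A' B' ?_ ?_ ?_ l hl σ o θ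
    ⟨fun a ha => hsep.1 a ?_, fun b hb => hsep.2 b ?_⟩
  · refine ⟨fun i => if (i : ℕ) < p then u₀ i else u i,
      fun i => if p + q * e ≤ (i : ℕ) then C₀ i else C i, ?_, ?_, ?_, ?_⟩
    · intro a ha i hi
      rw [hA'] at ha
      dsimp only
      split_ifs with h3
      · exact hu1 a ha.1 i h3
      · exact ha.2.1 i (by rw [hmP]; omega)
    · intro b hb i hi
      rw [hB'] at hb
      dsimp only
      split_ifs with h3
      · exact hu2 b hb.1 i h3
      · exact hb.2.1 i (by rw [hmP]; omega)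
    · intro b hb i hi
      rw [hB'] at hb
      dsimp only
      split_ifs with h3
      · exact hC1 b hb.1 i h3
      · exact hb.2.2 i (by rw [hmS]; omega)
    · intro a ha i hi
      rw [hA'] at ha
      dsimp only
      split_ifs with h3
      · exact hC2 a ha.1 i h3
      · exact ha.2.2 i (by rw [hmS]; omega)
  · refine h1.trans (pr_mono fun z hz => ?_)
    obtain ⟨x, hx, a, ha, hax⟩ := hz
    refine ⟨a, ?_, ?_⟩
    · rw [hA']
      refine ⟨ha, fun i hi => ?_, fun i hi => ?_⟩
      · have h3 := hmP.1 hi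
        rw [hax i (mem_itv.2 (by omega)), Finset.piecewise_eq_of_mem _ _ _ (hPm (Nat.le_succ j) hi),
          Finset.piecewise_eq_of_mem _ _ _ hi]
      · have h3 := hmS.1 hi
        rw [hax i (mem_itv.2 (by omega)), Finset.piecewise_eq_of_notMem]
        · exact hx i hi
        · rw [hmP]
          omega
    · intro i hi
      have h3 := mem_itv.1 hi
      rw [hax i (mem_itv.2 (by omega)), Finset.piecewise_eq_of_mem _ _ _ (by rw [hmP]; omega),
        Finset.piecewise_eq_of_notMem]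
      rw [hmP]
      omega
  · refine h2.trans (pr_mono fun z hz => ?_)
    obtain ⟨x, hx, b, hb, hbx⟩ := hz
    refine ⟨b, ?_, ?_⟩
    · rw [hB']
      refine ⟨hb, fun i hi => ?_, fun i hi => ?_⟩
      · have h3 := hmP.1 hi
        rw [hbx i (mem_itv.2 (by omega)), Finset.piecewise_eq_of_notMem]
        · exact hx i hi
        · rw [hmS]
          omega
      · have h3 := hmS.1 hi
        rw [hbx i (mem_itv.2 (by omega)), Finset.piecewise_eq_of_mem _ _ _ (hSm (Nat.le_succ j) hi),
          Finset.piecewise_eq_of_mem _ _ _ hi]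
    · intro i hi
      have h3 := mem_itv.1 hi
      rw [hbx i (mem_itv.2 (by omega)), Finset.piecewise_eq_of_mem _ _ _ (by rw [hmS]; omega),
        Finset.piecewise_eq_of_notMem]
      rw [hmS]
      omega
  · rw [hA'] at ha
    exact ha.1
  · rw [hB'] at hb
    exact hb.1

/-- The induction. -/
theorem noSep_pow (hφ : Function.Injective φ) (hs : ∀ z, φ z ≠ s) {q k K : ℕ} {μ μ' κ : ℝ}
    (hq : 0 < q) (hμ' : 0 < μ') (hμκ : μ = κ / 2) (hκ1 : κ ≤ 1)
    (hbase : 2 * (r : ℝ) / Fintype.card V < μ)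
    (hκ : ∀ b, q ≤ 2 * b → κ ^ b ≤ μ' / 4)
    (hk1 : (L : ℝ) * (k / Fintype.card V) < μ' * κ / (16 * q))
    (hk2 : (L : ℝ) * (1 / 2) ^ k < μ' * κ / (16 * q)) (hK : K * w * μ' < μ) (h : ℕ) :
    NoSep s t φ w r α (q ^ h) (K ^ h) μ := by
  have hμ0 : 0 < μ := lt_of_le_of_lt (by positivity) hbase
  have hκ0 : 0 < κ := by linarith
  induction h with
  | zero =>
    rw [pow_zero, pow_zero]
    intro p hp A B hadm hA hB l hl σ o θ
    exact base_case hφ hs (by omega) hbase hadm hA hB l hl σ o θ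
  | succ h ih =>
    rw [pow_succ', pow_succ']
    rw [hμκ] at ih
    exact (ih.space hμ' hq hκ0 hκ1 hκ hk1 hk2).time hμ' hK

end

end Pool.Agent.Lib.MP_f83138_lc.Mono
end

section

set_option autoImplicit false

/-!
# The lower bound with parameters
-/

namespace Pool.Agent.Lib.MP_f83138_lc.Mono

open Finset

section

variable {L : ℕ} {V U : Type*}

theorem reachable_path (s t : U) (φ : Fin L × V → U) (a : Fin L → V) :
    Reachable (pathG s t φ a) s t := by
  have h1 : ∀ j, j ≤ L + 1 → Reachable (pathG s t φ a) s (pt s t φ a j) := by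
    intro j
    induction j with
    | zero =>
      intro _
      have : pt s t φ a 0 = s := by simp [pt]
      rw [this]
      exact Relation.ReflTransGen.refl
    | succ j ih =>
      intro hj
      exact Relation.ReflTransGen.tail (ih (by omega)) ⟨j, by omega, rfl⟩
  have h2 := h1 (L + 1) le_rfl
  have h3 : pt s t φ a (L + 1) = t := by
    unfold pt
    rw [if_neg (by omega), dif_neg (by omega)]
  rwa [h3] at h2

theorem not_reachable_cut {s t : U} (hst : s ≠ t) {φ : Fin L × V → U} (ht : ∀ z, φ z ≠ t)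
    (b : Fin L → Finset V) : ¬ Reachable (cutG s φ b) s t := by
  intro h
  have h1 : ∀ x, Reachable (cutG s φ b) s x → x ∈ side s φ b := by
    intro x hx
    induction hx with
    | refl => exact Or.inl rfl
    | tail _ hyz ih => exact hyz ih
  rcases h1 t h with h2 | ⟨i, v, h2, -⟩
  · exact hst h2.symm
  · exact ht _ h2.symm

end

/-- The lower bound with parameters, for the average number of correct answers. -/
theorem core_avg {n w r : ℕ} {α : Type*} [LinearOrder α] {s t : Fin n} (hst : s ≠ t)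
    {q h k g a b' m : ℕ} (hq : 0 < q) (ha : 1 ≤ a)
    (hn : q ^ h * m + 2 ≤ n) (hbase : 2 * r * 2 ^ a < m) (hw : w * 2 ^ (g + a) < 2 ^ b')
    (hab : 2 * (b' + 2) ≤ (a - 1) * q) (hm1 : 8 * q * q ^ h * k * 2 ^ (a + b') < m)
    (hm2 : 8 * q * q ^ h * 2 ^ (a + b') < 2 ^ k) :
    ∃ φ : Fin (q ^ h) × Fin m → Fin n, (∀ z, φ z ≠ t) ∧
      ∀ P : MonoProgram n w r α, P.steps.length ≤ 2 ^ (g * h) →
      pr (fun x : Fin (q ^ h) → Fin m => P.Accepts (pathG s t φ x)) < 1 / 2 ^ a ∨
      pr (fun x : Fin (q ^ h) → Finset (Fin m) => ¬ P.Accepts (cutG s φ x)) < 1 / 2 ^ a := by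
  classical
  have hm0 : 0 < m := lt_of_le_of_lt (Nat.zero_le _) hbase
  have : Nonempty (Fin m) := ⟨⟨0, hm0⟩⟩
  obtain ⟨φ₀⟩ : Nonempty ((Fin (q ^ h) × Fin m) ↪ {x : Fin n // x ≠ s ∧ x ≠ t}) := by
    refine Function.Embedding.nonempty_of_card_le ?_
    rw [Fintype.card_prod, Fintype.card_fin, Fintype.card_fin, Fintype.card_subtype]
    have h1 : (Finset.univ.filter fun x : Fin n => x ≠ s ∧ x ≠ t) = Finset.univ \ {s, t} := by
      ext x
      simp
    rw [h1, Finset.card_sdiff_of_subset (Finset.subset_univ _), Finset.card_univ,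
      Fintype.card_fin, Finset.card_pair hst]
    omega
  obtain ⟨φ, hφ⟩ : ∃ φ : Fin (q ^ h) × Fin m → Fin n, φ = fun z => (φ₀ z : Fin n) := ⟨_, rfl⟩
  have hφi : Function.Injective φ := by
    rw [hφ]
    exact Subtype.val_injective.comp φ₀.injective
  have hφs : ∀ z, φ z ≠ s := fun z => by rw [hφ]; exact (φ₀ z).2.1
  have hφt : ∀ z, φ z ≠ t := fun z => by rw [hφ]; exact (φ₀ z).2.2
  have hmR : (0 : ℝ) < m := by exact_mod_cast hm0
  have hqR : (0 : ℝ) < q := by exact_mod_cast hq
  have h2a : (0 : ℝ) < 2 ^ a := by positivity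
  have h2b : (0 : ℝ) < 2 ^ b' := by positivity
  have key := noSep_pow (w := w) (r := r) (α := α) (t := t) hφi hφs (q := q) (k := k) (K := 2 ^ g)
    (μ := 1 / 2 ^ a) (μ' := 1 / 2 ^ b') (κ := 2 / 2 ^ a) hq (by positivity)
    (by rw [div_div, mul_comm (2 ^ a : ℝ) 2, ← div_div]; norm_num)
    (by
      rw [div_le_one h2a]
      calc (2 : ℝ) = 2 ^ 1 := (pow_one 2).symm
        _ ≤ 2 ^ a := pow_le_pow_right₀ (by norm_num) ha)
    (by
      rw [Fintype.card_fin, div_lt_div_iff₀ hmR h2a, one_mul]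
      exact_mod_cast hbase)
    (by
      intro b hb
      have h3 : (2 / 2 ^ a : ℝ) = (1 / 2) ^ (a - 1) := by
        obtain ⟨c, rfl⟩ : ∃ c, a = c + 1 := ⟨a - 1, by omega⟩
        rw [Nat.add_sub_cancel, pow_succ, one_div, inv_pow]
        field_simp
      have h4 : (1 / 2 ^ b' / 4 : ℝ) = (1 / 2) ^ (b' + 2) := by
        rw [pow_add, one_div, one_div, inv_pow]
        norm_num
        rw [div_eq_mul_inv]
        norm_num
      rw [h3, h4, ← pow_mul]
      refine pow_le_pow_of_le_one (by norm_num) (by norm_num) ?_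
      have h5 : (a - 1) * q ≤ (a - 1) * (2 * b) := Nat.mul_le_mul_left _ hb
      nlinarith)
    (by
      rw [Fintype.card_fin, lt_div_iff₀ (by positivity), ← mul_div_assoc, div_mul_eq_mul_div,
        div_lt_iff₀ hmR]
      have h3 : (8 * q * q ^ h * k * 2 ^ (a + b') : ℝ) < m := by exact_mod_cast hm1
      push_cast
      rw [pow_add] at h3
      rw [div_mul_div_comm, one_mul, div_mul_eq_mul_div, lt_div_iff₀ (by positivity)]
      nlinarith)
    (by
      have h3 : (8 * q * q ^ h * 2 ^ (a + b') : ℝ) < 2 ^ k := by exact_mod_cast hm2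
      push_cast
      rw [lt_div_iff₀ (by positivity), div_mul_div_comm, one_mul, lt_div_iff₀ (by positivity),
        one_div, inv_pow, ← div_eq_mul_inv, div_mul_eq_mul_div, div_mul_eq_mul_div,
        div_lt_iff₀ (by positivity)]
      rw [pow_add] at h3
      nlinarith)
    (by
      push_cast
      rw [mul_one_div, div_lt_div_iff₀ h2b h2a, one_mul]
      have h3 : ((w * 2 ^ (g + a) : ℕ) : ℝ) < ((2 ^ b' : ℕ) : ℝ) := by exact_mod_cast hw
      push_cast at h3
      rw [pow_add] at h3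
      linarith)
    h
  refine ⟨φ, hφt, fun P hPlen => ?_⟩
  by_contra hcon
  rw [not_or, not_lt, not_lt] at hcon
  refine key 0 (by omega) {x | P.Accepts (pathG s t φ x)} {x | ¬ P.Accepts (cutG s φ x)} ?_ ?_ ?_
    P.steps ?_ P.init P.out P.thr ⟨?_, ?_⟩
  · refine ⟨fun _ => ⟨0, hm0⟩, fun _ => ∅, fun _ _ i hi => absurd hi (Nat.not_lt_zero _),
      fun _ _ i hi => absurd hi (Nat.not_lt_zero _), fun _ _ i hi => absurd i.2 (by omega),
      fun _ _ i hi => absurd i.2 (by omega)⟩
  · refine le_trans hcon.1 (pr_mono fun x hx => ⟨x, hx, fun _ _ => rfl⟩)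
  · refine le_trans hcon.2 (pr_mono fun x hx => ⟨x, hx, fun _ _ => rfl⟩)
  · rw [← pow_mul]
    exact hPlen
  · intro a ha
    exact ha
  · intro b hb
    exact not_le.1 hb

open Classical in
theorem avg_sum_comm {Ω J : Type*} [Fintype Ω] [Fintype J] (μ : J → ℝ) (Q : J → Ω → Prop) :
    avg (fun x => ∑ i, if Q i x then μ i else 0) = ∑ i, μ i * pr (Q i) := by
  unfold pr avg
  rw [Finset.sum_comm, Finset.sum_div]
  refine Finset.sum_congr rfl fun i _ => ?_
  rw [← mul_div_assoc, Finset.mul_sum]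
  congr 1
  refine Finset.sum_congr rfl fun x _ => ?_
  split_ifs
  · rw [mul_one]
  · rw [mul_zero]

/-- The lower bound with parameters, for randomized programs. -/
theorem core {n w r : ℕ} {α : Type*} [LinearOrder α] {s t : Fin n} (hst : s ≠ t)
    {Ω : Type*} [Fintype Ω] {μ : Ω → ℝ} {P : Ω → MonoProgram n w r α} {δ : ℝ}
    (hP : Solves μ P s t (1 / 2 + δ)) {T : ℕ} (hT : ∀ i, (P i).steps.length ≤ T)
    {q h k g a b' m : ℕ} (hq : 0 < q) (ha : 1 ≤ a) (hδ : 1 / 2 ^ a < 2 * δ)
    (hn : q ^ h * m + 2 ≤ n) (hbase : 2 * r * 2 ^ a < m) (hw : w * 2 ^ (g + a) < 2 ^ b')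
    (hab : 2 * (b' + 2) ≤ (a - 1) * q) (hm1 : 8 * q * q ^ h * k * 2 ^ (a + b') < m)
    (hm2 : 8 * q * q ^ h * 2 ^ (a + b') < 2 ^ k) : 2 ^ (g * h) < T := by
  classical
  have hm0 : 0 < m := lt_of_le_of_lt (Nat.zero_le _) hbase
  have : Nonempty (Fin m) := ⟨⟨0, hm0⟩⟩
  obtain ⟨φ, hφt, key⟩ := core_avg (α := α) hst hq ha hn hbase hw hab hm1 hm2
  obtain ⟨hμ0, hμ1, hP⟩ := hP
  by_contra hcon
  push Not at hcon
  have h1 : 1 / 2 + δ ≤
      ∑ i, μ i * pr (fun x : Fin (q ^ h) → Fin m => (P i).Accepts (pathG s t φ x)) := by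
    rw [← avg_sum_comm, ← avg_const (Ω := Fin (q ^ h) → Fin m) (1 / 2 + δ)]
    refine avg_mono fun x => le_trans (hP (pathG s t φ x)) (le_of_eq ?_)
    refine Finset.sum_congr rfl fun i _ => if_congr ?_ rfl rfl
    exact ⟨fun h2 => h2.2 (reachable_path s t φ x), fun h2 => iff_of_true h2
      (reachable_path s t φ x)⟩
  have h2 : 1 / 2 + δ ≤
      ∑ i, μ i * pr (fun x : Fin (q ^ h) → Finset (Fin m) => ¬ (P i).Accepts (cutG s φ x)) := by
    rw [← avg_sum_comm, ← avg_const (Ω := Fin (q ^ h) → Finset (Fin m)) (1 / 2 + δ)]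
    refine avg_mono fun x => le_trans (hP (cutG s φ x)) (le_of_eq ?_)
    refine Finset.sum_congr rfl fun i _ => ?_
    have h3 := not_reachable_cut hst hφt x
    have h4 : (P i).Correct s t (cutG s φ x) ↔ ¬ (P i).Accepts (cutG s φ x) :=
      ⟨fun h2 h4 => h3 (h2.1 h4), fun h2 => iff_of_false h2 h3⟩
    by_cases h5 : (P i).Correct s t (cutG s φ x)
    · rw [if_pos h5, if_pos (h4.1 h5)]
    · rw [if_neg h5, if_neg fun h6 => h5 (h4.2 h6)]
  have h3 : ∑ i, μ i * (pr (fun x : Fin (q ^ h) → Fin m => (P i).Accepts (pathG s t φ x)) +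
      pr (fun x : Fin (q ^ h) → Finset (Fin m) => ¬ (P i).Accepts (cutG s φ x))) ≤
      ∑ i, μ i * (1 + 1 / 2 ^ a) := by
    refine Finset.sum_le_sum fun i _ => mul_le_mul_of_nonneg_left ?_ (hμ0 i)
    rcases key (P i) ((hT i).trans hcon) with h4 | h4
    · have h5 := pr_le_one (fun x : Fin (q ^ h) → Finset (Fin m) => ¬ (P i).Accepts (cutG s φ x))
      linarith
    · have h5 := pr_le_one (fun x : Fin (q ^ h) → Fin m => (P i).Accepts (pathG s t φ x))
      linarith
  rw [← Finset.sum_mul, hμ1, one_mul] at h3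
  simp only [mul_add, Finset.sum_add_distrib] at h3
  linarith

end Pool.Agent.Lib.MP_f83138_lc.Mono
end
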